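import Mathlib

/-!
# All minors of the Hilbert matrix are nonzero in characteristic zero
-/

namespace Pool.Agent.TH708.Fat

open Finset

/-- The Hilbert matrix, with entries `1 / (i + j + 1)`. -/
def hilbert (F : Type) [Field F] (n : ℕ) (i j : Fin n) : F := (((i + j + 1 : ℕ) : F))⁻¹

theorem hilbert_minor (F : Type) [Field F] [CharZero F] (n k : ℕ) (p q : Fin k → Fin n)
    (hp : Function.Injective p) (hq : Function.Injective q) :
    Matrix.det (Matrix.of fun a b => hilbert F n (p a) (q b)) ≠ 0 := by
  classical
  intro hdet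
  obtain ⟨c, hc0, hc⟩ := Matrix.exists_mulVec_eq_zero_iff.mpr hdet
  have hpos : ∀ a b : ℕ, ((a : F) + (b : F) + 1) ≠ 0 := by
    intro a b
    exact_mod_cast Nat.succ_ne_zero (a + b)
  let P : Polynomial F := ∑ b, Polynomial.C (c b) *
    ∏ l ∈ univ.erase b, (Polynomial.X + Polynomial.C (((q l : ℕ) : F) + 1))
  have hdeg : P.natDegree < Fintype.card (Fin k) := by
    rcases Nat.eq_zero_or_pos k with hk | hk
    · subst hk
      exact absurd (Subsingleton.elim c 0) hc0
    · rw [Fintype.card_fin]
      refine lt_of_le_of_lt (Polynomial.natDegree_sum_le_of_forall_le (n := k - 1) _ _ ?_)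
        (by omega)
      intro b _
      refine (Polynomial.natDegree_C_mul_le _ _).trans
        ((Polynomial.natDegree_prod_le _ _).trans ?_)
      refine (sum_le_sum fun l _ => (Polynomial.natDegree_X_add_C _).le).trans ?_
      rw [sum_const, smul_eq_mul, mul_one, card_erase_of_mem (mem_univ b), card_univ,
        Fintype.card_fin]
  have hroot : ∀ a : Fin k, P.eval (((p a : ℕ) : F)) = 0 := by
    intro a
    have e1 : P.eval ((p a : ℕ) : F) =
        (∏ l, (((p a : ℕ) : F) + (((q l : ℕ) : F) + 1))) *
          ∑ b, hilbert F n (p a) (q b) * c b := by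
      rw [mul_sum]
      simp only [P, Polynomial.eval_finsetSum, Polynomial.eval_mul, Polynomial.eval_C,
        Polynomial.eval_prod, Polynomial.eval_add, Polynomial.eval_X]
      refine sum_congr rfl fun b _ => ?_
      rw [← mul_prod_erase univ _ (mem_univ b)]
      have h := hpos (p a : ℕ) (q b : ℕ)
      have h' : ((((p a : ℕ) + (q b : ℕ) + 1 : ℕ) : F)) =
          ((p a : ℕ) : F) + (((q b : ℕ) : F) + 1) := by push_cast; ring
      have h'' : ((p a : ℕ) : F) + (((q b : ℕ) : F) + 1) ≠ 0 := by
        rw [← add_assoc]; exact h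
      unfold hilbert
      rw [h']
      field_simp
    rw [e1]
    have h0 : ∑ b, hilbert F n (p a) (q b) * c b = 0 := by
      have := congrFun hc a
      simpa [Matrix.mulVec, dotProduct] using this
    rw [h0, mul_zero]
  have hinj : Function.Injective fun a : Fin k => (((p a : ℕ) : F)) := by
    intro a b hab
    exact hp (Fin.ext (Nat.cast_injective hab))
  have hP0 : P = 0 :=
    Polynomial.eq_zero_of_natDegree_lt_card_of_eval_eq_zero P hinj hroot hdeg
  apply hc0
  funext b
  have hev : P.eval (-(((q b : ℕ) : F) + 1)) = 0 := by rw [hP0]; simp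
  simp only [P, Polynomial.eval_finsetSum, Polynomial.eval_mul, Polynomial.eval_C,
    Polynomial.eval_prod, Polynomial.eval_add, Polynomial.eval_X] at hev
  rw [sum_eq_single b] at hev
  · rcases mul_eq_zero.1 hev with h | h
    · exact h
    · exfalso
      rw [prod_eq_zero_iff] at h
      obtain ⟨l, hl, hl0⟩ := h
      have : ((q l : ℕ) : F) = ((q b : ℕ) : F) := by linear_combination hl0
      have h2 := hq (Fin.ext (Nat.cast_injective this))
      exact (ne_of_mem_erase hl) h2
  · intro b' _ hb'
    rw [prod_eq_zero (i := b) (mem_erase.2 ⟨Ne.symm hb', mem_univ _⟩) (by ring), mul_zero]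
  · intro h; exact absurd (mem_univ b) h

end Pool.Agent.TH708.Fat
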