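import Pool.Agent.TH708.Fat.Lin
import Pool.Agent.H682R3.Few.Bool

set_option linter.unusedSectionVars false

/-!
# Boolean circuits for convolution over the field with two elements
-/

namespace Pool.Agent.TH708.Fat

open Finset Pool.Agent.H682R3.Few

/-- The product of a Toeplitz matrix and a vector over the field with two elements, as a
length-preserving function: with `n = m / 3`, the output `i < n` is the parity of the number of
`j < n` with `a_j = a_{2 n + i - j} = 1`, the other outputs are `0`. -/
def conv2 (m : ℕ) (a : Fin m → Bool) (i : Fin m) : Bool :=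
  decide ((i : ℕ) < m / 3 ∧ Odd ((range (m / 3)).filter fun j =>
    bit a j = true ∧ bit a (2 * (m / 3) + (i : ℕ) - j) = true).card)

/-- The bit as an element of the field. -/
def e2 (b : Bool) : ZMod 2 := if b then 1 else 0

theorem e2_inj {a b : Bool} (h : e2 a = e2 b) : a = b := by
  cases a <;> cases b <;> simp_all [e2]

theorem e2_xor (a b : Bool) : e2 (xor a b) = e2 a - e2 b := by
  cases a <;> cases b <;> decide

section count

variable {m : ℕ}

/-- One entry of the product of the Toeplitz matrix given by `z` and the vector `x`. -/
def row (z : Fin m → Bool) (x : Fin (m / 3) → Bool) (i : Fin (m / 3)) : ZMod 2 :=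
  ∑ j : Fin (m / 3), e2 (x j) * e2 (bit z (2 * (m / 3) + (i : ℕ) - (j : ℕ)))

theorem conv2_eq (a : Fin m → Bool) (i : Fin (m / 3)) :
    e2 (conv2 m a (emb m i)) = row a (fun j => a (emb m j)) i := by
  have h1 : row a (fun j => a (emb m j)) i = (((range (m / 3)).filter fun j =>
    bit a j = true ∧ bit a (2 * (m / 3) + (i : ℕ) - j) = true).card : ZMod 2) := by
    rw [row, Finset.card_filter, Nat.cast_sum, ← Fin.sum_univ_eq_sum_range
      (fun j => ((if bit a j = true ∧ bit a (2 * (m / 3) + (i : ℕ) - j) = true then 1 else 0 : ℕ) :
        ZMod 2))]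
    refine sum_congr rfl fun j _ => ?_
    have hb : bit a (j : ℕ) = a (emb m j) := by
      have hjm : (j : ℕ) < m := (emb m j).2
      unfold bit
      rw [dif_pos hjm]
      rfl
    rw [hb]
    generalize bit a (2 * (m / 3) + (i : ℕ) - (j : ℕ)) = c
    cases a (emb m j) <;> cases c <;> simp [e2]
  rw [h1]
  unfold conv2
  have hi : ((emb m i : Fin m) : ℕ) < m / 3 := i.2
  have he : ((emb m i : Fin m) : ℕ) = (i : ℕ) := rfl
  rw [he]
  set c := ((range (m / 3)).filter fun j =>
    bit a j = true ∧ bit a (2 * (m / 3) + (i : ℕ) - j) = true).card
  rcases Nat.even_or_odd c with h | h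
  · have h2 : ¬ ((i : ℕ) < m / 3 ∧ Odd c) := fun h' => (Nat.not_odd_iff_even.2 h) h'.2
    rw [decide_eq_false h2]
    rw [(ZMod.natCast_eq_zero_iff_even).2 h]
    rfl
  · rw [decide_eq_true ⟨i.2, h⟩]
    rw [(ZMod.natCast_eq_one_iff_odd).2 h]
    rfl

/-- The assignments in `S` whose Toeplitz matrix kills `x` in the rows `I`. -/
def killed (S : Finset (Fin m → Bool)) (x : Fin (m / 3) → Bool) (I : Finset (Fin (m / 3))) :
    Finset (Fin m → Bool) := S.filter fun z => ∀ i ∈ I, row z x i = 0

/-- `S` is closed under changing the bits from `m / 3` on. -/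
def ShiftFree (S : Finset (Fin m → Bool)) : Prop :=
  ∀ z ∈ S, ∀ k : Fin m, m / 3 ≤ (k : ℕ) → ∀ b, Function.update z k b ∈ S

theorem killed_card (S : Finset (Fin m → Bool)) (hS : ShiftFree S) (x : Fin (m / 3) → Bool)
    (hx : ∃ j, x j = true) (I : Finset (Fin (m / 3))) :
    (killed S x I).card * 2 ^ I.card ≤ S.card := by
  classical
  -- the last index with `x j = 1`
  have hne : (univ.filter fun j => x j = true).Nonempty := by
    obtain ⟨j, hj⟩ := hx
    exact ⟨j, by simp [hj]⟩
  set j0 := (univ.filter fun j => x j = true).max' hne with hj0
  have hxj0 : x j0 = true := by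
    have := (univ.filter fun j => x j = true).max'_mem hne
    rw [mem_filter] at this
    exact this.2
  have hmax : ∀ j, x j = true → j ≤ j0 := fun j hj =>
    (univ.filter fun j => x j = true).le_max' j (by simp [hj])
  have h3 : 3 * (m / 3) ≤ m := Nat.mul_div_le m 3
  induction I using Finset.induction_on_min with
  | empty => simp [killed]
  | insert a I ha ih =>
    have haI : a ∉ I := fun h => lt_irrefl _ (ha a h)
    rw [card_insert_of_notMem haI]
    have ha2 := a.2
    have hj2 := j0.2
    set k0 : Fin m := ⟨2 * (m / 3) + (a : ℕ) - (j0 : ℕ), by omega⟩ with hk0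
    let tog : (Fin m → Bool) → (Fin m → Bool) := fun z => Function.update z k0 (!z k0)
    -- bits elsewhere are unchanged
    have hbit : ∀ (z : Fin m → Bool) (k : ℕ), k ≠ (k0 : ℕ) → bit (tog z) k = bit z k := by
      intro z k hk
      unfold bit
      by_cases hkm : k < m
      · rw [dif_pos hkm, dif_pos hkm]
        exact Function.update_of_ne (fun h => hk (congrArg Fin.val h)) _ _
      · rw [dif_neg hkm, dif_neg hkm]
    have hbit0 : ∀ z : Fin m → Bool, bit (tog z) (k0 : ℕ) = !(bit z (k0 : ℕ)) := by
      intro z
      unfold bit
      rw [dif_pos k0.2, dif_pos k0.2]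
      exact Function.update_self _ _ _
    -- rows below
    have hrow : ∀ z : Fin m → Bool, ∀ i ∈ I, row (tog z) x i = row z x i := by
      intro z i hi
      unfold row
      refine sum_congr rfl fun j _ => ?_
      by_cases hj : x j = true
      · rw [hbit]
        have h1 := ha i hi
        have h2 := hmax j hj
        have h4 : (a : ℕ) < (i : ℕ) := h1
        have h5 : (j : ℕ) ≤ (j0 : ℕ) := h2
        have := i.2
        simp only [hk0]
        omega
      · have : e2 (x j) = 0 := by simp [e2, hj]
        rw [this, zero_mul, zero_mul]
    have hrowa : ∀ z : Fin m → Bool, row (tog z) x a = row z x a + 1 := by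
      intro z
      unfold row
      rw [← add_sum_erase univ _ (mem_univ j0), ← add_sum_erase univ _ (mem_univ j0)]
      have h1 : ∑ j ∈ univ.erase j0, e2 (x j) * e2 (bit (tog z) (2 * (m / 3) + (a : ℕ) - j)) =
          ∑ j ∈ univ.erase j0, e2 (x j) * e2 (bit z (2 * (m / 3) + (a : ℕ) - j)) := by
        refine sum_congr rfl fun j hj => ?_
        by_cases hxj : x j = true
        · rw [hbit]
          have h2 := hmax j hxj
          have h4 : j ≠ j0 := ne_of_mem_erase hj
          have h5 : (j : ℕ) ≤ (j0 : ℕ) := h2
          have h6 : (j : ℕ) ≠ (j0 : ℕ) := fun h => h4 (Fin.ext h)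
          simp only [hk0]
          omega
        · have : e2 (x j) = 0 := by simp [e2, hxj]
          rw [this, zero_mul, zero_mul]
      rw [h1]
      have h2 : bit (tog z) (2 * (m / 3) + (a : ℕ) - (j0 : ℕ)) =
          !(bit z (2 * (m / 3) + (a : ℕ) - (j0 : ℕ))) := hbit0 z
      rw [h2, hxj0]
      have h4 : ∀ b : Bool, e2 true * e2 (!b) = e2 true * e2 b + 1 := by
        intro b; cases b <;> decide
      rw [h4]
      ring
    have hle : (killed S x (insert a I)).card ≤
        ((killed S x I) \ (killed S x (insert a I))).card := by
      apply card_le_card_of_injOn tog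
      · intro z hz
        rw [mem_coe, killed, mem_filter] at hz
        rw [mem_coe, mem_sdiff, killed, mem_filter, killed, mem_filter]
        have hzS : tog z ∈ S := hS z hz.1 k0 (by
          show m / 3 ≤ 2 * (m / 3) + (a : ℕ) - (j0 : ℕ)
          omega) _
        refine ⟨⟨hzS, fun i hi => ?_⟩, fun hcon => ?_⟩
        · rw [hrow z i hi]
          exact hz.2 i (mem_insert_of_mem hi)
        · have h1 := hcon.2 a (mem_insert_self _ _)
          rw [hrowa, hz.2 a (mem_insert_self _ _)] at h1
          exact absurd h1 (by decide)
      · intro z _ w _ hzw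
        have h1 := congrFun hzw k0
        simp only [tog, Function.update_self] at h1
        have h2 : z k0 = w k0 := by
          revert h1
          cases z k0 <;> cases w k0 <;> simp
        funext k
        by_cases hk : k = k0
        · rw [hk]; exact h2
        · have h3 := congrFun hzw k
          simp only [tog] at h3
          rwa [Function.update_of_ne hk, Function.update_of_ne hk] at h3
    have hsub : killed S x (insert a I) ⊆ killed S x I := by
      intro z hz
      rw [killed, mem_filter] at hz ⊢
      exact ⟨hz.1, fun i hi => hz.2 i (mem_insert_of_mem hi)⟩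
    rw [card_sdiff_of_subset hsub] at hle
    have hle2 := card_le_card hsub
    have h2 : 2 * (killed S x (insert a I)).card ≤ (killed S x I).card := by omega
    calc (killed S x (insert a I)).card * 2 ^ (I.card + 1)
        = 2 * (killed S x (insert a I)).card * 2 ^ I.card := by rw [pow_succ]; ring
      _ ≤ (killed S x I).card * 2 ^ I.card := Nat.mul_le_mul_right _ h2
      _ ≤ S.card := ih

end count

section sep

variable {m : ℕ} (C : BCircuit m)

/-- If `T` meets all paths from the variables in `J` to `w`, then the values on `T` determine the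
value at `w`, the other inputs being fixed. -/
theorem val_eq' (T : Finset C.V) (J : Finset (Fin (m / 3))) (a b : Fin m → Bool)
    (hab : ∀ x, (∀ j ∈ J, x ≠ emb m j) → a x = b x) (hT : ∀ v ∈ T, C.val a v = C.val b v) :
    ∀ w, (∀ j ∈ J, C.G.cnt T (start (labx C) j) w = 0) → C.val a w = C.val b w := by
  have main : ∀ N : ℕ, ∀ w, C.G.rank w < N → (∀ j ∈ J, C.G.cnt T (start (labx C) j) w = 0) →
      C.val a w = C.val b w := by
    intro N
    induction N with
    | zero => intro v hv; exact absurd hv (Nat.not_lt_zero _)
    | succ N ih =>
      intro w hw h1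
      by_cases hwT : w ∈ T
      · exact hT w hwT
      · rcases hl : C.label w with _ | x
        · refine C.val_gate w hl a b fun u hu => ih u ?_ ?_
          · have := C.G.acyclic u w hu
            omega
          · intro j hj
            have h2 := h1 j hj
            rw [C.G.cnt_not_mem hwT, Nat.add_eq_zero_iff] at h2
            exact (sum_eq_zero_iff.mp h2.2) u (by simpa using hu)
        · rw [C.val_input a w x hl, C.val_input b w x hl]
          refine hab x ?_
          rintro j hj rfl
          have h2 := h1 j hj
          rw [C.G.cnt_not_mem hwT, Nat.add_eq_zero_iff] at h2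
          have := (labx_eq C w j).mpr hl
          simp [start, this] at h2
  exact fun w => main _ w (Nat.lt_succ_self _)

/-- Clearing the bits of `J`. -/
def clear (J : Finset (Fin (m / 3))) (a : Fin m → Bool) : Fin m → Bool :=
  fun k => if k ∈ J.image (emb m) then false else a k

theorem emb_inj : Function.Injective (emb m) := fun _ _ h =>
  Fin.ext (congrArg (fun x : Fin m => (x : ℕ)) h)

/-- The assignments with no bit of `J` set. -/
def cleared (J : Finset (Fin (m / 3))) : Finset (Fin m → Bool) :=
  univ.filter fun z => ∀ j ∈ J, z (emb m j) = false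

theorem cleared_free (J : Finset (Fin (m / 3))) : ShiftFree (cleared (m := m) J) := by
  intro z hz k hk b
  rw [cleared, mem_filter] at hz ⊢
  refine ⟨mem_univ _, fun j hj => ?_⟩
  rw [Function.update_of_ne]
  · exact hz.2 j hj
  · intro h
    have := congrArg Fin.val h
    have h2 := j.2
    have h3 : ((emb m j : Fin m) : ℕ) = (j : ℕ) := rfl
    omega

/-- The vectors supported on `J`. -/
def supp (J : Finset (Fin (m / 3))) : Finset (Fin (m / 3) → Bool) :=
  univ.filter fun x => ∀ j, x j = true → j ∈ J

theorem supp_card (J : Finset (Fin (m / 3))) : (supp (m := m) J).card ≤ 2 ^ J.card := by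
  classical
  rw [← card_powerset]
  apply card_le_card_of_injOn (fun x => univ.filter fun j => x j = true)
  · intro x hx
    rw [mem_coe, supp, mem_filter] at hx
    rw [mem_coe, mem_powerset]
    intro j hj
    rw [mem_filter] at hj
    exact hx.2 j hj.2
  · intro x _ y _ hxy
    funext j
    have h1 := congrArg (fun s => j ∈ s) hxy
    simp only [mem_filter, mem_univ, true_and] at h1
    have h2 : (x j = true) ↔ (y j = true) := by rw [h1]
    revert h2
    cases x j <;> cases y j <;> simp

theorem cleared_card (J : Finset (Fin (m / 3))) :
    (cleared (m := m) J).card * 2 ^ J.card ≤ 2 ^ m := by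
  classical
  have h1 : ((cleared (m := m) J) ×ˢ J.powerset).card ≤ (univ : Finset (Fin m → Bool)).card := by
    apply card_le_card_of_injOn (fun p => fun k => if k ∈ J.image (emb m) then
      decide (k ∈ p.2.image (emb m)) else p.1 k) (fun _ _ => mem_coe.2 (mem_univ _))
    rintro ⟨z, P⟩ hz ⟨w, Q⟩ hw hzw
    rw [mem_coe, mem_product, cleared, mem_filter, mem_powerset] at hz hw
    simp only at hz hw hzw
    rw [Prod.mk.injEq]
    constructor
    · funext k
      have h2 := congrFun hzw k
      by_cases hk : k ∈ J.image (emb m)
      · rw [mem_image] at hk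
        obtain ⟨j, hj, rfl⟩ := hk
        rw [hz.1.2 j hj, hw.1.2 j hj]
      · simp only [hk, if_false] at h2
        exact h2
    · ext j
      constructor
      · intro hj
        have hjJ := hz.2 hj
        have h2 := congrFun hzw (emb m j)
        have h3 : emb m j ∈ J.image (emb m) := mem_image_of_mem _ hjJ
        simp only [h3, if_true] at h2
        have h4 : emb m j ∈ P.image (emb m) := mem_image_of_mem _ hj
        rw [decide_eq_true h4] at h2
        have h5 := of_decide_eq_true h2.symm
        rw [mem_image] at h5
        obtain ⟨j', hj', he⟩ := h5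
        rwa [emb_inj he] at hj'
      · intro hj
        have hjJ := hw.2 hj
        have h2 := congrFun hzw (emb m j)
        have h3 : emb m j ∈ J.image (emb m) := mem_image_of_mem _ hjJ
        simp only [h3, if_true] at h2
        have h4 : emb m j ∈ Q.image (emb m) := mem_image_of_mem _ hj
        rw [decide_eq_true h4] at h2
        have h5 := of_decide_eq_true h2
        rw [mem_image] at h5
        obtain ⟨j', hj', he⟩ := h5
        rwa [emb_inj he] at hj'
  rw [card_product, card_powerset, card_univ, Fintype.card_fun, Fintype.card_bool,
    Fintype.card_fin] at h1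
  exact h1

/-- The inputs on which the circuit computes the convolution correctly. -/
def good : Finset (Fin m → Bool) :=
  univ.filter fun a => ∀ i : Fin (m / 3), C.val a (C.out (emb m i)) = conv2 m a (emb m i)

theorem good_card (T : Finset C.V) (I J : Finset (Fin (m / 3))) (hIJ : I.card = J.card)
    (h : ∀ i ∈ I, ∀ j ∈ J, C.G.cnt T (start (labx C) j) (C.out (emb m i)) = 0) :
    (good C).card * 2 ^ J.card ≤ 2 ^ (T.card + 1 + m) := by
  classical
  -- the part of an assignment on `J`
  let xa : (Fin m → Bool) → (Fin (m / 3) → Bool) := fun a j => if j ∈ J then a (emb m j) else false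
  let tv : (Fin m → Bool) → (↥T → Bool) := fun a v => C.val a v
  let rep : (↥T → Bool) × (Fin m → Bool) → (Fin m → Bool) := fun p =>
    if hp : ∃ a ∈ good C, tv a = p.1 ∧ clear J a = p.2 then hp.choose else fun _ => false
  have hrep : ∀ a ∈ good C, rep (tv a, clear J a) ∈ good C ∧ tv (rep (tv a, clear J a)) = tv a ∧
      clear J (rep (tv a, clear J a)) = clear J a := by
    intro a ha
    have hp : ∃ b ∈ good C, tv b = (tv a, clear J a).1 ∧ clear J b = (tv a, clear J a).2 :=
      ⟨a, ha, rfl, rfl⟩
    have : rep (tv a, clear J a) = hp.choose := dif_pos hp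
    rw [this]
    exact ⟨hp.choose_spec.1, hp.choose_spec.2.1, hp.choose_spec.2.2⟩
  let KK : Finset ((Fin (m / 3) → Bool) × (Fin m → Bool)) :=
    (supp J).biUnion fun x => {x} ×ˢ killed (cleared J) x I
  -- the injection
  have hinj : (good C).card ≤ ((univ : Finset (↥T → Bool)) ×ˢ KK).card := by
    apply card_le_card_of_injOn
      (fun a => (tv a, (fun j => xor (xa a j) (xa (rep (tv a, clear J a)) j), clear J a)))
    · intro a ha
      have ha' : a ∈ good C := ha
      obtain ⟨h1, h2, h3⟩ := hrep a ha'
      set b := rep (tv a, clear J a) with hb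
      rw [mem_coe, mem_product]
      refine ⟨mem_univ _, ?_⟩
      rw [mem_biUnion]
      refine ⟨fun j => xor (xa a j) (xa b j), ?_, ?_⟩
      · rw [supp, mem_filter]
        refine ⟨mem_univ _, fun j hj => ?_⟩
        by_contra hjJ
        simp [xa, hjJ] at hj
      · rw [mem_product]
        refine ⟨mem_singleton_self _, ?_⟩
        rw [killed, mem_filter]
        have hoff : ∀ k, k ∉ J.image (emb m) → a k = b k := by
          intro k hk
          have := congrFun h3 k
          simp only [clear, hk, if_false] at this
          exact this.symm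
        constructor
        · rw [cleared, mem_filter]
          refine ⟨mem_univ _, fun j hj => ?_⟩
          simp only [clear]
          rw [if_pos (mem_image_of_mem _ hj)]
        · intro i hi
          -- equal outputs
          have hv : C.val a (C.out (emb m i)) = C.val b (C.out (emb m i)) := by
            refine val_eq' C T J a b ?_ ?_ _ (fun j hj => h i hi j hj)
            · intro k hk
              apply hoff
              intro hk'
              rw [mem_image] at hk'
              obtain ⟨j, hj, rfl⟩ := hk'
              exact hk j hj rfl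
            · intro v hv
              have := congrFun h2 ⟨v, hv⟩
              exact this.symm
          have ha2 := (mem_filter.1 ha').2 i
          have hb2 := (mem_filter.1 h1).2 i
          rw [ha2, hb2] at hv
          have hrows : row a (fun j => a (emb m j)) i = row b (fun j => b (emb m j)) i := by
            rw [← conv2_eq, ← conv2_eq, hv]
          -- bits of the matrix
          have hbits : ∀ (c : Fin m → Bool), (∀ k, k ∉ J.image (emb m) → c k = a k) →
              ∀ j : Fin (m / 3), bit c (2 * (m / 3) + (i : ℕ) - (j : ℕ)) =
                bit a (2 * (m / 3) + (i : ℕ) - (j : ℕ)) := by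
            intro c hc j
            unfold bit
            have hi2 := i.2
            have hj2 := j.2
            have h33 : 3 * (m / 3) ≤ m := Nat.mul_div_le m 3
            have hlt : 2 * (m / 3) + (i : ℕ) - (j : ℕ) < m := by omega
            rw [dif_pos hlt, dif_pos hlt]
            apply hc
            rw [mem_image]
            rintro ⟨j', _, he⟩
            have h5 := congrArg Fin.val he
            have h6 := j'.2
            have h7 : ((emb m j' : Fin m) : ℕ) = (j' : ℕ) := rfl
            simp only at h5
            omega
          have hb3 := hbits b (fun k hk => (hoff k hk).symm)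
          have hc3 := hbits (clear J a) (fun k hk => by simp only [clear, hk, if_false])
          unfold row at hrows ⊢
          have h8 : ∑ j : Fin (m / 3), e2 (xor (xa a j) (xa b j)) *
              e2 (bit (clear J a) (2 * (m / 3) + (i : ℕ) - (j : ℕ))) =
              ∑ j : Fin (m / 3), e2 (a (emb m j)) *
                e2 (bit a (2 * (m / 3) + (i : ℕ) - (j : ℕ))) -
              ∑ j : Fin (m / 3), e2 (b (emb m j)) *
                e2 (bit b (2 * (m / 3) + (i : ℕ) - (j : ℕ))) := by
            rw [← sum_sub_distrib]
            refine sum_congr rfl fun j _ => ?_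
            rw [hb3 j, hc3 j, e2_xor, ← sub_mul]
            congr 1
            by_cases hj : j ∈ J
            · simp only [xa, hj, if_true]
            · simp only [xa, hj, if_false]
              have h9 : a (emb m j) = b (emb m j) := by
                apply hoff
                intro hk
                rw [mem_image] at hk
                obtain ⟨j', hj', he⟩ := hk
                exact hj (emb_inj he ▸ hj')
              rw [h9, sub_self, sub_self]
          rw [h8, hrows, sub_self]
    · intro a _ b _ hab
      rw [Prod.mk.injEq, Prod.mk.injEq] at hab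
      obtain ⟨h1, h2, h3⟩ := hab
      rw [h1, h3] at h2
      funext k
      by_cases hk : k ∈ J.image (emb m)
      · rw [mem_image] at hk
        obtain ⟨j, hj, rfl⟩ := hk
        have h4 := congrFun h2 j
        simp only [xa, hj, if_true] at h4
        revert h4
        cases a (emb m j) <;> cases b (emb m j) <;> simp
      · have h4 := congrFun h3 k
        simp only [clear, hk, if_false] at h4
        exact h4
  -- the count
  have hKK : KK.card * 2 ^ J.card ≤ 2 * (cleared (m := m) J).card * 2 ^ J.card := by
    have h1 : KK.card ≤ ∑ x ∈ supp (m := m) J, (killed (cleared J) x I).card := by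
      refine card_biUnion_le.trans (sum_le_sum fun x _ => ?_)
      rw [card_product, card_singleton, one_mul]
    have h2 : ∀ x ∈ supp (m := m) J, (killed (cleared J) x I).card * 2 ^ J.card ≤
        (cleared (m := m) J).card + if x = (fun _ => false) then
          (cleared (m := m) J).card * 2 ^ J.card else 0 := by
      intro x _
      by_cases hx : x = fun _ => false
      · rw [if_pos hx]
        refine le_trans ?_ (Nat.le_add_left _ _)
        exact Nat.mul_le_mul_right _ (card_le_card (filter_subset _ _))
      · rw [if_neg hx, add_zero, ← hIJ]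
        apply killed_card _ (cleared_free J)
        by_contra hcon
        push Not at hcon
        apply hx
        funext j
        have := hcon j
        revert this
        cases x j <;> simp
    calc KK.card * 2 ^ J.card
        ≤ (∑ x ∈ supp (m := m) J, (killed (cleared J) x I).card) * 2 ^ J.card :=
          Nat.mul_le_mul_right _ h1
      _ = ∑ x ∈ supp (m := m) J, (killed (cleared J) x I).card * 2 ^ J.card := by rw [sum_mul]
      _ ≤ ∑ x ∈ supp (m := m) J, ((cleared (m := m) J).card + if x = (fun _ => false) then
          (cleared (m := m) J).card * 2 ^ J.card else 0) := sum_le_sum h2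
      _ ≤ (supp (m := m) J).card * (cleared (m := m) J).card +
            (cleared (m := m) J).card * 2 ^ J.card := by
          rw [sum_add_distrib, sum_const, smul_eq_mul]
          apply Nat.add_le_add_left
          rw [sum_ite_eq']
          split_ifs
          · exact le_rfl
          · exact Nat.zero_le _
      _ ≤ 2 ^ J.card * (cleared (m := m) J).card + (cleared (m := m) J).card * 2 ^ J.card :=
          Nat.add_le_add_right (Nat.mul_le_mul_right _ (supp_card J)) _
      _ = 2 * (cleared (m := m) J).card * 2 ^ J.card := by ring
  have hKK2 : KK.card ≤ 2 * (cleared (m := m) J).card :=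
    Nat.le_of_mul_le_mul_right hKK (by positivity)
  rw [card_product, card_univ, Fintype.card_fun, Fintype.card_bool, Fintype.card_coe] at hinj
  calc (good C).card * 2 ^ J.card ≤ (2 ^ T.card * KK.card) * 2 ^ J.card :=
        Nat.mul_le_mul_right _ hinj
    _ ≤ (2 ^ T.card * (2 * (cleared (m := m) J).card)) * 2 ^ J.card :=
        Nat.mul_le_mul_right _ (Nat.mul_le_mul_left _ hKK2)
    _ = 2 ^ T.card * 2 * ((cleared (m := m) J).card * 2 ^ J.card) := by ring
    _ ≤ 2 ^ T.card * 2 * 2 ^ m := Nat.mul_le_mul_left _ (cleared_card J)
    _ = 2 ^ (T.card + 1 + m) := by rw [pow_add, pow_add]; ring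

/-- The gates through which more than `θ` pairs of one of the first `n` inputs and one of the
first `n` outputs pass (`n = m / 3`): the number of these inputs with a path to the gate times the
number of these outputs with a path from it exceeds `θ`. -/
noncomputable def heavyB (θ : ℕ) : Finset C.V :=
  univ.filter fun v => θ < (RR C.G (labx C) ∅ v).card *
    (SS C.G (fun i => C.out (emb m i)) ∅ v).card

theorem bool_heavy (θ q s : ℕ) (hq : 2 ^ m ≤ 2 ^ q * (good C).card)
    (hT : (heavyB C θ).card + q + 1 < s) (hn : 48 * s ≤ m / 3) :
    ((m / 3 : ℕ) : ℝ) ^ 2 * (Real.logb 2 ((m / 3 : ℕ) / (48 * s))) ^ 2 ≤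
      8 * (s + Real.logb 2 ((m / 3 : ℕ) / (48 * s))) *
        (θ * (Fintype.card C.V + C.G.E.card)) := by
  refine graph_bound C.G (labx C) (fun i => C.out (emb m i)) (heavyB C θ) θ s (by omega) hn (by
    intro v hv
    rw [heavyB, mem_filter] at hv
    push Not at hv
    exact (thr_anti _ _ _ _ v).trans (hv (mem_univ _))) ?_
  intro I J hI hJ
  by_contra hcon
  push Not at hcon
  have h := good_card C (heavyB C θ) I J (hI.trans hJ.symm) (by
    intro i hi j hj
    have := hcon i hi j hj
    rw [conn, mem_filter] at this
    push Not at this
    exact this (mem_univ _))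
  rw [hJ] at h
  have h1 : 2 ^ (m + s) ≤ 2 ^ (q + ((heavyB C θ).card + 1 + m)) := by
    calc 2 ^ (m + s) = 2 ^ m * 2 ^ s := pow_add _ _ _
      _ ≤ (2 ^ q * (good C).card) * 2 ^ s := Nat.mul_le_mul_right _ hq
      _ = 2 ^ q * ((good C).card * 2 ^ s) := by ring
      _ ≤ 2 ^ q * 2 ^ ((heavyB C θ).card + 1 + m) := Nat.mul_le_mul_left _ h
      _ = _ := (pow_add _ _ _).symm
  have h2 := (Nat.pow_le_pow_iff_right (by norm_num : 1 < 2)).1 h1
  omega

end sep

end Pool.Agent.TH708.Fat
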