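import Mathlib

set_option linter.unusedSectionVars false

/-!
# Rectangles in dense bipartite graphs
-/

namespace Pool.Agent.TH708.Fat

open Finset

theorem choose_ratio (n m s : ℕ) (hm : 4 * m ≤ n) (hs : 4 * s ≤ n) (hn : 0 < n) :
    (n.choose s : ℝ) ≤ ((n - m).choose s : ℝ) * Real.exp (2 * m * s / n) := by
  have hn' : (0 : ℝ) < n := by exact_mod_cast hn
  have hfac : (0 : ℝ) < (s.factorial : ℝ) := by exact_mod_cast Nat.factorial_pos s
  have hdesc : (n.descFactorial s : ℝ) ≤ ((n - m).descFactorial s : ℝ) *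
      Real.exp (2 * m * s / n) := by
    rw [Nat.descFactorial_eq_prod_range, Nat.descFactorial_eq_prod_range, Nat.cast_prod,
      Nat.cast_prod]
    have hexp : Real.exp (2 * m * s / n) = ∏ _i ∈ range s, Real.exp (2 * m / n) := by
      rw [prod_const, card_range, ← Real.exp_nat_mul]
      congr 1
      ring
    rw [hexp, ← prod_mul_distrib]
    refine prod_le_prod (fun i _ => Nat.cast_nonneg _) fun i hi => ?_
    have hi' := mem_range.1 hi
    have h1 : (2 : ℝ) * m / n + 1 ≤ Real.exp (2 * m / n) := Real.add_one_le_exp _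
    have h2 : ((n - i : ℕ) : ℝ) = n - i := Nat.cast_sub (by omega)
    have h3 : ((n - m - i : ℕ) : ℝ) = n - m - i := by
      rw [Nat.cast_sub (by omega), Nat.cast_sub (by omega)]
    rw [h2, h3]
    have h4 : (n : ℝ) ≤ 2 * (n - m - i) := by
      have : n ≤ 2 * (n - m - i) := by omega
      have h5 : (n : ℝ) ≤ ((2 * (n - m - i) : ℕ) : ℝ) := by exact_mod_cast this
      rw [Nat.cast_mul, h3] at h5
      push_cast at h5
      exact h5
    have h5 : (0 : ℝ) ≤ m := Nat.cast_nonneg m
    have h6 : (0 : ℝ) < n - m - i := by linarith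
    calc (n : ℝ) - i = (n - m - i) * (m / (n - m - i) + 1) := by field_simp; ring
      _ ≤ (n - m - i) * (2 * m / n + 1) := by
          apply mul_le_mul_of_nonneg_left _ h6.le
          apply add_le_add_left
          rw [div_le_div_iff₀ h6 hn']
          nlinarith
      _ ≤ (n - m - i) * Real.exp (2 * m / n) := mul_le_mul_of_nonneg_left h1 h6.le
  rw [Nat.descFactorial_eq_factorial_mul_choose, Nat.descFactorial_eq_factorial_mul_choose] at hdesc
  push_cast at hdesc
  rw [mul_assoc] at hdesc
  exact le_of_mul_le_mul_left hdesc hfac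

/-- Sparse bipartite graphs have large empty rectangles. -/
theorem empty_rect {n : ℕ} (X : Finset (Fin n × Fin n)) (s : ℕ) (hs : 1 ≤ s) (hn : 4 * s ≤ n)
    (h8 : 8 * X.card ≤ n ^ 2)
    (hX : 4 * (X.card : ℝ) * s ≤ (n : ℝ) ^ 2 * Real.log (n / (2 * s))) :
    ∃ I J : Finset (Fin n), I.card = s ∧ J.card = s ∧ ∀ i ∈ I, ∀ j ∈ J, (i, j) ∉ X := by
  classical
  have hn0 : 0 < n := by omega
  have hnR : (0 : ℝ) < n := by exact_mod_cast hn0
  have hsR : (0 : ℝ) < s := by exact_mod_cast hs
  set N : Fin n → Finset (Fin n) := fun i => univ.filter fun j => (i, j) ∉ X with hN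
  set m : Fin n → ℕ := fun i => (univ.filter fun j => (i, j) ∈ X).card with hm
  have hNm : ∀ i, (N i).card = n - m i := by
    intro i
    have := card_filter_add_card_filter_not (s := (univ : Finset (Fin n)))
      (fun j => (i, j) ∈ X)
    rw [card_univ, Fintype.card_fin] at this
    simp only [hN, hm]
    omega
  have hsum : ∑ i, m i = X.card := by
    simp only [hm, card_filter]
    rw [← Fintype.sum_prod_type' (f := fun i j => if (i, j) ∈ X then 1 else 0), ← card_filter]
    congr 1
    ext p
    simp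
  set P := X.card with hP
  set H := univ.filter (fun i => n * m i ≤ 2 * P) with hH
  have hHc : n ≤ 2 * H.card := by
    by_contra hcon
    have h1 : ∑ i ∈ univ.filter (fun i => ¬ n * m i ≤ 2 * P), (2 * P + 1) ≤
        ∑ i ∈ univ.filter (fun i => ¬ n * m i ≤ 2 * P), n * m i := by
      refine sum_le_sum fun i hi => ?_
      rw [mem_filter] at hi
      omega
    have h2 : ∑ i ∈ univ.filter (fun i => ¬ n * m i ≤ 2 * P), n * m i ≤ n * P := by
      have h2' : ∑ i, n * m i = n * P := by rw [← mul_sum, hsum]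
      rw [← h2']
      exact sum_le_sum_of_subset (f := fun i => n * m i)
        (filter_subset (fun i => ¬ n * m i ≤ 2 * P) univ)
    rw [sum_const, smul_eq_mul] at h1
    have h3 := card_filter_add_card_filter_not (s := (univ : Finset (Fin n)))
      (fun i => n * m i ≤ 2 * P)
    rw [card_univ, Fintype.card_fin, ← hH] at h3
    have h4 : n + 1 ≤ 2 * (univ.filter (fun i => ¬ n * m i ≤ 2 * P)).card := by omega
    have h5 : (n + 1) * (2 * P + 1) ≤ 2 * (n * P) := by
      calc (n + 1) * (2 * P + 1) ≤ 2 * (univ.filter (fun i => ¬ n * m i ≤ 2 * P)).card *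
            (2 * P + 1) := Nat.mul_le_mul_right _ h4
        _ = 2 * ((univ.filter (fun i => ¬ n * m i ≤ 2 * P)).card * (2 * P + 1)) := by ring
        _ ≤ 2 * (n * P) := Nat.mul_le_mul_left _ (h1.trans h2)
    nlinarith
  have hchoose : ∀ i ∈ H, (n.choose s : ℝ) * (2 * s / n) ≤ ((N i).card.choose s : ℝ) := by
    intro i hi
    rw [hH, mem_filter] at hi
    have hmi : n * m i ≤ 2 * P := hi.2
    have h4m : 4 * m i ≤ n := by
      have : n * (4 * m i) ≤ n * n := by nlinarith
      exact Nat.le_of_mul_le_mul_left this hn0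
    have h1 := choose_ratio n (m i) s h4m hn hn0
    rw [hNm]
    have h2 : Real.exp (2 * m i * s / n) ≤ n / (2 * s) := by
      rw [← Real.le_log_iff_exp_le (by positivity)]
      rw [div_le_iff₀ hnR]
      have h3 : (n : ℝ) * (2 * m i * s) ≤ n * (Real.log (n / (2 * s)) * n) := by
        have h4 : (n : ℝ) * m i ≤ 2 * P := by exact_mod_cast hmi
        calc (n : ℝ) * (2 * m i * s) = (n * m i) * (2 * s) := by ring
          _ ≤ (2 * P) * (2 * s) := mul_le_mul_of_nonneg_right h4 (by positivity)
          _ = 4 * (P : ℝ) * s := by ring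
          _ ≤ (n : ℝ) ^ 2 * Real.log (n / (2 * s)) := hX
          _ = _ := by ring
      exact le_of_mul_le_mul_left h3 hnR
    have h3 : (n.choose s : ℝ) ≤ ((n - m i).choose s : ℝ) * (n / (2 * s)) :=
      h1.trans (mul_le_mul_of_nonneg_left h2 (Nat.cast_nonneg _))
    calc (n.choose s : ℝ) * (2 * s / n) ≤ ((n - m i).choose s : ℝ) * (n / (2 * s)) * (2 * s / n) :=
          mul_le_mul_of_nonneg_right h3 (by positivity)
      _ = ((n - m i).choose s : ℝ) := by field_simp
  have htot : s * n.choose s ≤ ∑ i ∈ H, (N i).card.choose s := by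
    have h1 : (n : ℝ) ≤ 2 * H.card := by exact_mod_cast hHc
    have h2 : ((s * n.choose s : ℕ) : ℝ) ≤ ((∑ i ∈ H, (N i).card.choose s : ℕ) : ℝ) := by
      push_cast
      calc (s : ℝ) * n.choose s = (n / 2) * (n.choose s * (2 * s / n)) := by field_simp
        _ ≤ H.card * (n.choose s * (2 * s / n)) := by
            apply mul_le_mul_of_nonneg_right _ (by positivity)
            linarith
        _ = ∑ _i ∈ H, ((n.choose s : ℝ) * (2 * s / n)) := by rw [sum_const, nsmul_eq_mul]
        _ ≤ ∑ i ∈ H, ((N i).card.choose s : ℝ) := sum_le_sum hchoose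
    exact_mod_cast h2
  -- double counting
  have hdc : ∑ i ∈ H, (N i).card.choose s =
      ∑ J ∈ powersetCard s (univ : Finset (Fin n)), (H.filter fun i => J ⊆ N i).card := by
    simp only [card_filter]
    rw [sum_comm]
    refine sum_congr rfl fun i _ => ?_
    rw [← card_filter, ← card_powersetCard]
    congr 1
    ext J
    simp only [mem_powersetCard, mem_filter, subset_univ, true_and]
    exact and_comm
  have hex : ∃ J ∈ powersetCard s (univ : Finset (Fin n)), s ≤ (H.filter fun i => J ⊆ N i).card := by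
    by_contra hcon
    push Not at hcon
    have h1 : ∑ J ∈ powersetCard s (univ : Finset (Fin n)), (H.filter fun i => J ⊆ N i).card ≤
        ∑ _J ∈ powersetCard s (univ : Finset (Fin n)), (s - 1) :=
      sum_le_sum fun J hJ => by have := hcon J hJ; omega
    rw [sum_const, card_powersetCard, card_univ, Fintype.card_fin, smul_eq_mul, ← hdc] at h1
    have h2 : 0 < n.choose s := Nat.choose_pos (by omega)
    have h3 : n.choose s * (s - 1) < s * n.choose s := by
      rw [mul_comm]
      exact Nat.mul_lt_mul_of_pos_right (by omega) h2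
    omega
  obtain ⟨J, hJ, hJs⟩ := hex
  obtain ⟨I, hI, hIc⟩ := exists_subset_card_eq hJs
  refine ⟨I, J, hIc, (mem_powersetCard.1 hJ).2, fun i hi j hj => ?_⟩
  have h1 := (mem_filter.1 (hI hi)).2 hj
  exact (mem_filter.1 h1).2

/-- The form used below: a graph without an empty `s × s` rectangle has at least
`n² L / (4 (s + 2 L))` edges, `L = log (n / (2 s))`. -/
theorem many_edges {n : ℕ} (X : Finset (Fin n × Fin n)) (s : ℕ) (hs : 1 ≤ s) (hn : 4 * s ≤ n)
    (h : ∀ I J : Finset (Fin n), I.card = s → J.card = s → ∃ i ∈ I, ∃ j ∈ J, (i, j) ∈ X) :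
    (n : ℝ) ^ 2 * Real.log (n / (2 * s)) ≤
      4 * (s + 2 * Real.log (n / (2 * s))) * X.card := by
  have hn0 : 0 < n := by omega
  have hnR : (0 : ℝ) < n := by exact_mod_cast hn0
  have hsR : (0 : ℝ) < s := by exact_mod_cast hs
  set L := Real.log (n / (2 * s)) with hL
  have hL0 : 0 ≤ L := by
    apply Real.log_nonneg
    rw [le_div_iff₀ (by positivity)]
    have : (4 : ℝ) * s ≤ n := by exact_mod_cast hn
    linarith
  by_contra hcon
  push Not at hcon
  have hXn : (0 : ℝ) ≤ X.card := Nat.cast_nonneg _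
  have h1 : 4 * (X.card : ℝ) * s ≤ (n : ℝ) ^ 2 * L := by nlinarith
  have h2 : 8 * (X.card : ℝ) * L ≤ (n : ℝ) ^ 2 * L := by nlinarith
  have h3 : 8 * X.card ≤ n ^ 2 := by
    by_cases hL1 : L = 0
    · exfalso
      rw [hL1] at hcon
      nlinarith
    · have hLp : 0 < L := lt_of_le_of_ne hL0 (Ne.symm hL1)
      have := le_of_mul_le_mul_right h2 hLp
      exact_mod_cast this
  obtain ⟨I, J, hI, hJ, hIJ⟩ := empty_rect X s hs hn h3 h1
  obtain ⟨i, hi, j, hj, hij⟩ := h I J hI hJ
  exact hIJ i hi j hj hij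

end Pool.Agent.TH708.Fat
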