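import Pool.Agent.TH708.Fat.Thresh
import Pool.Agent.TH708.Fat.Rect

set_option linter.unusedSectionVars false

/-!
# The analytic end of the argument
-/

namespace Pool.Agent.TH708.Fat

open Finset

theorem key (M P Z : ℝ) (hM : 0 < M) (hZ : 0 ≤ Z) (hP : 0 < P)
    (h : ∀ K : ℕ, K * P ≤ Z + M * 2 ^ K) : (Real.logb 2 (P / M) - 2) * P ≤ Z := by
  by_cases h1 : 1 ≤ P / M
  · set x := Real.logb 2 (P / M) with hx
    have hx0 : 0 ≤ x := Real.logb_nonneg (by norm_num) h1
    have hK := h ⌊x⌋₊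
    have h2 : (2 : ℝ) ^ ⌊x⌋₊ ≤ P / M := by
      have h3 : ((⌊x⌋₊ : ℕ) : ℝ) ≤ x := Nat.floor_le hx0
      have h4 : (2 : ℝ) ^ ((⌊x⌋₊ : ℕ) : ℝ) ≤ P / M := by
        rw [← Real.le_logb_iff_rpow_le (by norm_num) (by positivity)]
        exact h3
      rwa [Real.rpow_natCast] at h4
    have h3 : x - 1 < ⌊x⌋₊ := by
      have := Nat.lt_floor_add_one x
      linarith
    have h4 : M * 2 ^ ⌊x⌋₊ ≤ P := by
      calc M * 2 ^ ⌊x⌋₊ ≤ M * (P / M) := mul_le_mul_of_nonneg_left h2 hM.le
        _ = P := by field_simp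
    nlinarith
  · push Not at h1
    have h2 : Real.logb 2 (P / M) ≤ 0 :=
      Real.logb_nonpos (by norm_num) (by positivity) h1.le
    nlinarith

/-- The final form: `M` is the number of outputs, `P` the number of connected pairs. -/
theorem final (n s : ℕ) (c M P Z : ℝ) (hs : 1 ≤ s) (hn : 48 * s ≤ n) (hc : 1 ≤ c) (hM : 0 < M)
    (hZ : 0 ≤ Z) (hP : M * n * Real.log (n / (2 * s)) ≤
      4 * c * (s + 2 * Real.log (n / (2 * s))) * P)
    (h : ∀ K : ℕ, K * P ≤ Z + M * 2 ^ K) (hΛ : 0 ≤ Real.logb 2 (n / (48 * c * s))) :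
    M * n * (Real.logb 2 (n / (48 * c * s))) ^ 2 ≤
      8 * c * (s + Real.logb 2 (n / (48 * c * s))) * Z := by
  have hn0 : 0 < n := by omega
  have hnR : (0 : ℝ) < n := by exact_mod_cast hn0
  have hsR : (1 : ℝ) ≤ s := by exact_mod_cast hs
  have hs0 : (0 : ℝ) < s := by linarith
  have h48 : (48 : ℝ) * s ≤ n := by exact_mod_cast hn
  set L := Real.log (n / (2 * s)) with hL
  set Λ := Real.logb 2 (n / (48 * c * s)) with hΛdef
  have hL1 : 1 ≤ L := by
    rw [hL, Real.le_log_iff_exp_le (by positivity)]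
    have h1 : Real.exp 1 < 2.7182818286 := Real.exp_one_lt_d9
    have h2 : (24 : ℝ) ≤ n / (2 * s) := by
      rw [le_div_iff₀ (by positivity)]; linarith
    linarith
  have hPpos : 0 < P := by
    by_contra hcon
    push Not at hcon
    have h1 : 4 * c * (s + 2 * L) * P ≤ 0 :=
      mul_nonpos_of_nonneg_of_nonpos (by positivity) hcon
    have h2 : 0 < M * n * L := by positivity
    linarith
  -- `P / M` is large
  have hPM : (n : ℝ) / (12 * c * s) ≤ P / M := by
    rw [div_le_div_iff₀ (by positivity) hM]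
    have h1 : (s : ℝ) + 2 * L ≤ 3 * (s * L) := by nlinarith
    have h2 : M * n * L ≤ (4 * c * (3 * (s * L))) * P := by
      refine hP.trans (mul_le_mul_of_nonneg_right ?_ hPpos.le)
      exact mul_le_mul_of_nonneg_left h1 (by positivity)
    have h3 : (n * M) * L ≤ (P * (12 * c * s)) * L := by nlinarith
    exact le_of_mul_le_mul_right h3 (by linarith)
  have hkey := key M P Z hM hZ hPpos h
  have hlog : Λ ≤ Real.logb 2 (P / M) - 2 := by
    have h1 : Λ + 2 = Real.logb 2 (n / (12 * c * s)) := by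
      rw [hΛdef]
      have h4 : (2 : ℝ) = Real.logb 2 4 := by
        rw [show (4 : ℝ) = 2 ^ (2 : ℝ) by norm_num, Real.logb_rpow (by norm_num) (by norm_num)]
      nth_rewrite 2 [h4]
      rw [← Real.logb_mul (by positivity) (by norm_num)]
      congr 1
      field_simp
      norm_num
    have h2 : Real.logb 2 (n / (12 * c * s)) ≤ Real.logb 2 (P / M) :=
      Real.logb_le_logb_of_le (by norm_num) (by positivity) hPM
    linarith
  have h1 : Λ * P ≤ Z := (mul_le_mul_of_nonneg_right hlog hPpos.le).trans hkey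
  -- `L` against `Λ`
  have hLΛ : Λ / 2 ≤ L := by
    have h2 : Λ = Real.log (n / (48 * c * s)) / Real.log 2 := rfl
    have h3 : Real.log (n / (48 * c * s)) ≤ L := by
      apply Real.log_le_log (by positivity)
      apply div_le_div_of_nonneg_left hnR.le (by positivity)
      nlinarith
    have h4 : (0.5 : ℝ) ≤ Real.log 2 := by
      have := Real.log_two_gt_d9; linarith
    have h5 : Λ * Real.log 2 = Real.log (n / (48 * c * s)) := by
      rw [h2]; field_simp
    nlinarith
  -- combine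
  have h2 : M * n * L * Λ ≤ 4 * c * (s + 2 * L) * Z := by
    calc M * n * L * Λ ≤ 4 * c * (s + 2 * L) * P * Λ := mul_le_mul_of_nonneg_right hP hΛ
      _ = 4 * c * (s + 2 * L) * (Λ * P) := by ring
      _ ≤ 4 * c * (s + 2 * L) * Z := mul_le_mul_of_nonneg_left h1 (by positivity)
  -- `Λ / (2 (s + Λ)) ≤ L / (s + 2 L)`
  have h3 : Λ * (s + 2 * L) ≤ 2 * L * (s + Λ) := by nlinarith
  have h4 : (M * n * Λ ^ 2) * (s + 2 * L) ≤ (8 * c * (s + Λ) * Z) * (s + 2 * L) := by
    calc (M * n * Λ ^ 2) * (s + 2 * L) = M * n * Λ * (Λ * (s + 2 * L)) := by ring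
      _ ≤ M * n * Λ * (2 * L * (s + Λ)) := mul_le_mul_of_nonneg_left h3 (by positivity)
      _ = 2 * (s + Λ) * (M * n * L * Λ) := by ring
      _ ≤ 2 * (s + Λ) * (4 * c * (s + 2 * L) * Z) :=
          mul_le_mul_of_nonneg_left h2 (by positivity)
      _ = _ := by ring
  exact le_of_mul_le_mul_right h4 (by positivity)

end Pool.Agent.TH708.Fat
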