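import Pool.Agent.TH708.Fat.Key
import Pool.Agent.H682R3.Few.Fat

set_option linter.unusedSectionVars false

/-!
# Linear circuits: few nodes with many variable-output pairs through them
-/

namespace Pool.Agent.TH708.Fat

open Finset H633LC Pool.Agent.H682R3.Few

theorem RR_anti {V : Type} [Fintype V] [DecidableEq V] (G : Dag V) {n : ℕ}
    (lab : V → Option (Fin n)) (T : Finset V) (v : V) : RR G lab T v ⊆ RR G lab ∅ v := by
  intro j hj
  rw [RR, mem_filter] at hj ⊢
  have := G.cnt_anti (empty_subset T) (start lab j) v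
  exact ⟨mem_univ _, fun h0 => hj.2 (by omega)⟩

theorem SS_anti {V : Type} [Fintype V] [DecidableEq V] (G : Dag V) {n : ℕ}
    (out : Fin n → V) (T : Finset V) (v : V) : SS G out T v ⊆ SS G out ∅ v := by
  intro i hi
  rw [SS, mem_filter] at hi ⊢
  have := G.cnt_anti (empty_subset T) (Pi.single v 1) (out i)
  exact ⟨mem_univ _, fun h0 => hi.2 (by omega)⟩

theorem thr_anti {V : Type} [Fintype V] [DecidableEq V] (G : Dag V) {n : ℕ}
    (lab : V → Option (Fin n)) (out : Fin n → V) (T : Finset V) (v : V) :
    thr G lab out T v ≤ thr G lab out ∅ v :=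
  Nat.mul_le_mul (card_le_card (RR_anti G lab T v)) (card_le_card (SS_anti G out T v))

/-- The bound for one system, from the absence of empty `s × s` rectangles. -/
theorem graph_bound {V : Type} [Fintype V] [DecidableEq V] (G : Dag V) {n : ℕ}
    (lab : V → Option (Fin n)) (out : Fin n → V) (T : Finset V) (θ s : ℕ) (hs : 1 ≤ s)
    (hn : 48 * s ≤ n) (hT : ∀ v ∉ T, thr G lab out T v ≤ θ)
    (h : ∀ I J : Finset (Fin n), I.card = s → J.card = s →
      ∃ i ∈ I, ∃ j ∈ J, (i, j) ∈ conn G lab out T) :
    (n : ℝ) ^ 2 * (Real.logb 2 (n / (48 * s))) ^ 2 ≤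
      8 * (s + Real.logb 2 (n / (48 * s))) * (θ * (Fintype.card V + G.E.card)) := by
  have hn0 : 0 < n := by omega
  have hnR : (0 : ℝ) < n := by exact_mod_cast hn0
  have hs0 : (0 : ℝ) < s := by exact_mod_cast hs
  have h1 := many_edges (conn G lab out T) s hs (by omega) h
  have h2 := final n s 1 n ((conn G lab out T).card : ℝ)
    (θ * (Fintype.card V + G.E.card)) hs hn le_rfl hnR (by positivity) (by
      calc (n : ℝ) * n * Real.log (n / (2 * s)) = (n : ℝ) ^ 2 * Real.log (n / (2 * s)) := by ring
        _ ≤ 4 * (s + 2 * Real.log (n / (2 * s))) * (conn G lab out T).card := h1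
        _ = _ := by ring) (by
      intro K
      have := thresh G (ρ := Unit) (fun _ => lab) (fun _ => out) T θ
        (fun v hv => by simpa using hT v hv) K
      simp only [univ_unique, sum_const, card_singleton, one_smul, Fintype.card_unit,
        one_mul] at this
      exact_mod_cast this) (by
      apply Real.logb_nonneg (by norm_num)
      rw [le_div_iff₀ (by positivity)]
      have : (48 : ℝ) * s ≤ n := by exact_mod_cast hn
      linarith)
  simp only [mul_one] at h2
  calc (n : ℝ) ^ 2 * (Real.logb 2 (n / (48 * s))) ^ 2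
      = (n : ℝ) * n * (Real.logb 2 (n / (48 * s))) ^ 2 := by ring
    _ ≤ _ := h2

theorem matrix_rank_add_le {F : Type} [Field F] {m n : ℕ} (A B : Matrix (Fin m) (Fin n) F) :
    (A + B).rank ≤ A.rank + B.rank := by
  unfold Matrix.rank
  rw [Matrix.mulVecLin_add]
  refine le_trans (Submodule.finrank_mono ?_) (Submodule.finrank_add_le_finrank_add_finrank _ _)
  rintro _ ⟨v, rfl⟩
  exact Submodule.add_mem_sup ⟨v, rfl⟩ ⟨v, rfl⟩

section lin

variable {F : Type} [Field F] {n : ℕ} (C : LinCircuit F n n)

/-- A set `T` of nodes does not separate `s` variables from `s` outputs if `|T| + q < s`. -/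
theorem lin_conn_pair (A B : Fin n → Fin n → F) (hC : C.Computes B)
    (hA : ∀ (k : ℕ) (p q : Fin k → Fin n), Function.Injective p → Function.Injective q →
      Matrix.det (Matrix.of fun a b => A (p a) (q b)) ≠ 0) (r s : ℕ)
    (hr : (Matrix.of A - Matrix.of B).rank ≤ r) (T : Finset C.V) (hT : T.card + r < s)
    (I J : Finset (Fin n)) (hI : I.card = s) (hJ : J.card = s) :
    ∃ i ∈ I, ∃ j ∈ J, (i, j) ∈ conn (dag C) C.label C.out T := by
  classical
  by_contra hcon
  push Not at hcon
  have h : ∀ i ∈ I, ∀ j ∈ J, (dag C).cnt T (start C.label j) (C.out i) = 0 := by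
    intro i hi j hj
    have := hcon i hi j hj
    rw [conn, mem_filter] at this
    push Not at this
    exact this (mem_univ _)
  obtain ⟨g, hg⟩ := Pool.Agent.H682R3.LC.exists_sol C T C.wt
  have hg0 : ∀ i ∈ I, ∀ j ∈ J, g (C.out i) j = 0 := fun i hi j hj =>
    sol_support C T g hg j _ (h i hi j hj)
  choose c hc using form_split' C T g hg
  let p : Fin s → Fin n := fun a => (I.equivFin.symm (Fin.cast hI.symm a) : Fin n)
  let q : Fin s → Fin n := fun a => (J.equivFin.symm (Fin.cast hJ.symm a) : Fin n)
  have hp : Function.Injective p := fun a b hab => by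
    have := Subtype.ext hab
    exact Fin.cast_injective hI.symm (I.equivFin.symm.injective this)
  have hq : Function.Injective q := fun a b hab => by
    have := Subtype.ext hab
    exact Fin.cast_injective hJ.symm (J.equivFin.symm.injective this)
  have hdet := hA s p q hp hq
  set MA : Matrix (Fin s) (Fin s) F := Matrix.of fun a b => A (p a) (q b) with hMA
  set MB : Matrix (Fin s) (Fin s) F := Matrix.of fun a b => B (p a) (q b) with hMB
  let P : Matrix (Fin s) T F := Matrix.of fun a v => c (C.out (p a)) v
  let Q : Matrix T (Fin s) F := Matrix.of fun v b => C.form v (q b)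
  have hPQ : MB = P * Q := by
    ext a b
    have h1 : g (C.out (p a)) (q b) = 0 :=
      hg0 _ (I.equivFin.symm (Fin.cast hI.symm a)).2 _ (J.equivFin.symm (Fin.cast hJ.symm b)).2
    have h2 := hc (C.out (p a)) (q b)
    rw [hC, h1, zero_add] at h2
    rw [Matrix.mul_apply, hMB]
    simp only [Matrix.of_apply, P, Q]
    rw [h2]
    exact (sum_coe_sort T (fun v => c (C.out (p a)) v * C.form v (q b))).symm
  have hr1 : MA.rank = s := by
    have hu : IsUnit MA := (Matrix.isUnit_iff_isUnit_det MA).mpr (isUnit_iff_ne_zero.mpr hdet)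
    rw [Matrix.rank_of_isUnit MA hu, Fintype.card_fin]
  have hr2 : MB.rank ≤ T.card := by
    rw [hPQ]
    refine (Matrix.rank_mul_le_left P Q).trans ?_
    have := Matrix.rank_le_card_width P
    simpa using this
  have hr3 : (MA - MB).rank ≤ r := by
    have : MA - MB = (Matrix.of A - Matrix.of B).submatrix p q := by
      ext a b; rfl
    rw [this]
    exact (Matrix.rank_submatrix_le _ _ _).trans hr
  have hr4 : MA.rank ≤ MB.rank + (MA - MB).rank := by
    have := matrix_rank_add_le MB (MA - MB)
    rwa [add_sub_cancel] at this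
  omega

/-- The nodes `v` through which more than `θ` variable-output pairs pass: the number of variables
with a path to `v` times the number of outputs with a path from `v` exceeds `θ`. -/
noncomputable def heavy (θ : ℕ) : Finset C.V :=
  univ.filter fun v => θ < (RR (dag C) C.label ∅ v).card * (SS (dag C) C.out ∅ v).card

theorem lin_heavy (A B : Fin n → Fin n → F) (hC : C.Computes B)
    (hA : ∀ (k : ℕ) (p q : Fin k → Fin n), Function.Injective p → Function.Injective q →
      Matrix.det (Matrix.of fun a b => A (p a) (q b)) ≠ 0) (r s θ : ℕ)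
    (hr : (Matrix.of A - Matrix.of B).rank ≤ r) (hT : (heavy C θ).card + r < s)
    (hn : 48 * s ≤ n) :
    (n : ℝ) ^ 2 * (Real.logb 2 (n / (48 * s))) ^ 2 ≤
      8 * (s + Real.logb 2 (n / (48 * s))) * (θ * C.size) := by
  have h := graph_bound (dag C) C.label C.out (heavy C θ) θ s (by omega) hn (by
    intro v hv
    rw [heavy, mem_filter] at hv
    push Not at hv
    exact (thr_anti _ _ _ _ v).trans (hv (mem_univ _)))
    (fun I J hI hJ => lin_conn_pair C A B hC hA r s hr (heavy C θ) hT I J hI hJ)
  unfold LinCircuit.size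
  push_cast
  exact h

end lin

end Pool.Agent.TH708.Fat
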