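import Pool.Agent.TH708.Fat.Lin
import Pool.Agent.H682R3.Few.MatMul

set_option linter.unusedSectionVars false

/-!
# Arithmetic circuits for matrix multiplication: heavy gates
-/

namespace Pool.Agent.TH708.Fat

open Finset Pool.Agent.H682R3.Few

section grad

variable {F : Type} [Field F] {σ : Type} [DecidableEq σ] [Fintype σ]

/-- The gradient at the origin. -/
noncomputable def grad (p : MvPolynomial σ F) : σ → F :=
  fun x => MvPolynomial.eval 0 (MvPolynomial.pderiv x p)

theorem grad_mem {S : Set (MvPolynomial σ F)} {W : Submodule F (σ → F)}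
    (hS : ∀ g ∈ S, grad g ∈ W) (p : MvPolynomial σ F) (hp : p ∈ Algebra.adjoin F S) :
    grad p ∈ W := by
  induction hp using Algebra.adjoin_induction with
  | mem x hx => exact hS x hx
  | algebraMap r =>
    have : grad (algebraMap F (MvPolynomial σ F) r) = 0 := by
      funext x
      simp [grad, MvPolynomial.algebraMap_eq]
    rw [this]
    exact W.zero_mem
  | add x y _ _ hx hy =>
    have : grad (x + y) = grad x + grad y := by
      funext z
      simp [grad]
    rw [this]
    exact W.add_mem hx hy
  | mul x y _ _ hx hy =>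
    have : grad (x * y) = MvPolynomial.eval 0 y • grad x + MvPolynomial.eval 0 x • grad y := by
      funext z
      simp [grad, Derivation.leibniz]
      ring
    rw [this]
    exact W.add_mem (W.smul_mem _ hx) (W.smul_mem _ hy)

/-- Polynomials generating distinct variables are at least as many as these variables. -/
theorem card_le_of_adjoin (J : Finset σ) {ι : Type} (T : Finset ι) (g : ι → MvPolynomial σ F)
    (h : ∀ x ∈ J, MvPolynomial.X x ∈ Algebra.adjoin F (g '' (T : Set ι))) :
    J.card ≤ T.card := by
  classical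
  set W : Submodule F (σ → F) := Submodule.span F ((T.image fun v => grad (g v)) : Set (σ → F))
    with hW
  have h1 : ∀ x ∈ J, (Pi.single x 1 : σ → F) ∈ W := by
    intro x hx
    have h2 : grad (MvPolynomial.X x : MvPolynomial σ F) ∈ W := by
      refine grad_mem (S := g '' (T : Set ι)) ?_ _ (h x hx)
      rintro _ ⟨v, hv, rfl⟩
      apply Submodule.subset_span
      rw [mem_coe, mem_image]
      exact ⟨v, hv, rfl⟩
    have h3 : grad (MvPolynomial.X x : MvPolynomial σ F) = Pi.single x 1 := by
      funext z
      unfold grad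
      by_cases hz : z = x
      · subst hz
        rw [MvPolynomial.pderiv_X_self, Pi.single_eq_same, map_one]
      · rw [MvPolynomial.pderiv_X_of_ne (Ne.symm hz), Pi.single_eq_of_ne hz, map_zero]
    rw [← h3]
    exact h2
  have hli : LinearIndependent F (fun x : ↥J => (Pi.single (x : σ) 1 : σ → F)) := by
    have h4 := (Pi.basisFun F σ).linearIndependent
    have h5 := h4.comp (fun x : ↥J => (x : σ)) Subtype.val_injective
    convert h5 using 1
    funext x
    simp
  have hli2 : LinearIndependent F (fun x : ↥J => (⟨Pi.single (x : σ) 1, h1 x x.2⟩ : ↥W)) := by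
    apply LinearIndependent.of_comp W.subtype
    exact hli
  have h6 := hli2.fintype_card_le_finrank
  rw [Fintype.card_coe] at h6
  have h7 : Module.finrank F ↥W ≤ (T.image fun v => grad (g v)).card :=
    finrank_span_finset_le_card _
  exact h6.trans (h7.trans card_image_le)

end grad

section mm

variable {F : Type} [Field F] {n : ℕ} (C : ACircuit F n)

/-- Indicator of the nodes carrying the variable `a_p`. -/
def aStart (p : Fin n × Fin n) : C.V → ℕ := fun v => if C.label v = some (Sum.inl p) then 1 else 0

theorem mem_adjT (T : Finset C.V) (J : Finset (Fin n × Fin n)) : ∀ w,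
    (∀ p ∈ J, C.G.cnt T (aStart C p) w = 0) →
    C.val w ∈ Algebra.adjoin F ((MvPolynomial.X '' {x : Vars n | ∀ p ∈ J, x ≠ Sum.inl p}) ∪
      C.val '' (T : Set C.V)) := by
  have main : ∀ N : ℕ, ∀ w, C.G.rank w < N → (∀ p ∈ J, C.G.cnt T (aStart C p) w = 0) →
    C.val w ∈ Algebra.adjoin F ((MvPolynomial.X '' {x : Vars n | ∀ p ∈ J, x ≠ Sum.inl p}) ∪
      C.val '' (T : Set C.V)) := by
    intro N
    induction N with
    | zero => intro v hv; exact absurd hv (Nat.not_lt_zero _)
    | succ N ih =>
      intro w hw h1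
      by_cases hwT : w ∈ T
      · exact Algebra.subset_adjoin (Or.inr ⟨w, hwT, rfl⟩)
      · rcases hl : C.label w with _ | x
        · have hg := C.val_gate w hl
          refine Algebra.adjoin_le ?_ hg
          rintro _ ⟨u, hu, rfl⟩
          have huE : (u, w) ∈ C.G.E := hu
          have := C.G.acyclic u w huE
          refine ih u (by omega) fun p hp => ?_
          have h2 := h1 p hp
          rw [C.G.cnt_not_mem hwT, Nat.add_eq_zero_iff] at h2
          exact (sum_eq_zero_iff.mp h2.2) u (by simpa using huE)
        · rw [C.val_input w x hl]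
          refine Algebra.subset_adjoin (Or.inl ⟨x, ?_, rfl⟩)
          rintro p hp rfl
          have h2 := h1 p hp
          rw [C.G.cnt_not_mem hwT, Nat.add_eq_zero_iff] at h2
          simp [aStart, hl] at h2
  exact fun w => main _ w (Nat.lt_succ_self _)

/-- The pairs of a variable of the first matrix and an output that are joined by a path
avoiding `T`. -/
noncomputable def HH (T : Finset C.V) : Finset ((Fin n × Fin n) × (Fin n × Fin n)) :=
  univ.filter fun p => C.G.cnt T (aStart C p.1) (C.out p.2.1 p.2.2) ≠ 0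

theorem lt_card {n : ℕ} (k : ℕ) (hk : k ≤ n) :
    (univ.filter fun t : Fin n => (t : ℕ) < k).card = k := by
  have h2 : (univ.filter fun t : Fin n => (t : ℕ) < k).card = (range k).card := by
    refine card_bij (fun (t : Fin n) (_ : t ∈ _) => (t : ℕ)) ?_ ?_ ?_
    · intro t ht; simpa using ht
    · intro a _ b _ h; exact Fin.ext h
    · intro b hb
      rw [mem_range] at hb
      exact ⟨⟨b, by omega⟩, by simp [hb], rfl⟩
  rw [h2, card_range]

theorem cyc_card {n : ℕ} [NeZero n] (k : ℕ) (hk : k ≤ n) (j : Fin n) :
    (univ.filter fun u : Fin n => ((j - u : Fin n) : ℕ) < k).card = k := by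
  refine Eq.trans ?_ (lt_card k hk)
  apply card_bij' (fun u _ => j - u) (fun t _ => j - t)
  · intro u hu; simpa using hu
  · intro t ht; simpa using ht
  · intro u _; simp
  · intro t _; simp

theorem cyc_card' {n : ℕ} [NeZero n] (k : ℕ) (hk : k ≤ n) (u : Fin n) :
    (univ.filter fun j : Fin n => ((j - u : Fin n) : ℕ) < k).card = k := by
  refine Eq.trans ?_ (lt_card k hk)
  apply card_bij' (fun j _ => j - u) (fun t _ => t + u)
  · intro j hj; simpa using hj
  · intro t ht; simpa using ht
  · intro j _; simp
  · intro t _; simp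

/-- Few connected pairs force many nodes in the cut. -/
theorem cut_bound (hC : C.ComputesMM) (T : Finset C.V) (k : ℕ) (hk : 1 ≤ k) (hkn : k ≤ n)
    (hT : 2 * T.card ≤ n * k) : n ^ 3 ≤ 2 * (HH C T).card * k := by
  classical
  have hn : 0 < n := by omega
  have : NeZero n := ⟨by omega⟩
  set H := HH C T with hH
  let e : Fin n × Fin n → Finset ((Fin n × Fin n) × (Fin n × Fin n)) := fun uv =>
    H.filter fun p => ((p.1.2 - uv.1 : Fin n) : ℕ) < k ∧ ((p.2.2 - uv.2 : Fin n) : ℕ) < k
  have hsum : ∑ uv, (e uv).card = H.card * k ^ 2 := by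
    simp only [e, card_filter]
    rw [sum_comm]
    have h1 : ∀ p ∈ H, (∑ uv : Fin n × Fin n, if ((p.1.2 - uv.1 : Fin n) : ℕ) < k ∧
        ((p.2.2 - uv.2 : Fin n) : ℕ) < k then 1 else 0) = k ^ 2 := by
      intro p _
      rw [← card_filter]
      have h2 : (univ.filter fun uv : Fin n × Fin n => ((p.1.2 - uv.1 : Fin n) : ℕ) < k ∧
          ((p.2.2 - uv.2 : Fin n) : ℕ) < k) =
          (univ.filter fun u : Fin n => ((p.1.2 - u : Fin n) : ℕ) < k) ×ˢ
            (univ.filter fun v : Fin n => ((p.2.2 - v : Fin n) : ℕ) < k) := by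
        ext uv; simp
      rw [h2, card_product, cyc_card k hkn, cyc_card k hkn, sq]
    rw [sum_congr rfl h1, sum_const, smul_eq_mul]
  -- a good pair of shifts
  obtain ⟨uv, huv⟩ : ∃ uv, (e uv).card * n ^ 2 ≤ H.card * k ^ 2 := by
    by_contra hcon
    push Not at hcon
    have h1 : ∑ _uv : Fin n × Fin n, (H.card * k ^ 2 + 1) ≤ ∑ uv : Fin n × Fin n,
        (e uv).card * n ^ 2 := sum_le_sum fun uv _ => hcon uv
    rw [sum_const, card_univ, Fintype.card_prod, Fintype.card_fin, smul_eq_mul, ← sum_mul, hsum]
      at h1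
    have : 0 < n * n := Nat.mul_pos hn hn
    nlinarith
  obtain ⟨u, v⟩ := uv
  -- the surviving variables
  set J0 : Finset (Fin n × Fin n) := univ.filter fun x => ((x.2 - u : Fin n) : ℕ) < k with hJ0
  set J : Finset (Fin n × Fin n) := J0.filter fun x =>
    ∀ y : Fin n × Fin n, ((y.2 - v : Fin n) : ℕ) < k → (x, y) ∉ H with hJ
  have hJ0c : J0.card = n * k := by
    have : J0 = (univ : Finset (Fin n)) ×ˢ
        (univ.filter fun j : Fin n => ((j - u : Fin n) : ℕ) < k) := by
      ext x; simp [hJ0]
    rw [this, card_product, card_univ, Fintype.card_fin]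
    rw [cyc_card' k hkn]
  have hJc : J0.card ≤ J.card + (e (u, v)).card := by
    have h1 := card_filter_add_card_filter_not (s := J0) (fun x =>
      ∀ y : Fin n × Fin n, ((y.2 - v : Fin n) : ℕ) < k → (x, y) ∉ H)
    have h2 : (J0.filter fun x => ¬ ∀ y : Fin n × Fin n, ((y.2 - v : Fin n) : ℕ) < k →
        (x, y) ∉ H).card ≤ (e (u, v)).card := by
      have h3 : (J0.filter fun x => ¬ ∀ y : Fin n × Fin n, ((y.2 - v : Fin n) : ℕ) < k →
        (x, y) ∉ H) ⊆ (e (u, v)).image Prod.fst := by
        intro x hx
        rw [mem_filter] at hx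
        obtain ⟨hx1, hx2⟩ := hx
        push Not at hx2
        obtain ⟨y, hy1, hy2⟩ := hx2
        rw [mem_image]
        refine ⟨(x, y), ?_, rfl⟩
        simp only [e, mem_filter]
        exact ⟨hy2, by simpa [hJ0] using hx1, hy1⟩
      exact (card_le_card h3).trans card_image_le
    rw [← h1]
    exact Nat.add_le_add_left h2 _
  -- the specialisation
  let β : Vars n → MvPolynomial (Fin n × Fin n) F
    | Sum.inl p => if p ∈ J then MvPolynomial.X p else 0
    | Sum.inr p => if p.1 - u = p.2 - v then 1 else 0
  let φ : MvPolynomial (Vars n) F →ₐ[F] MvPolynomial (Fin n × Fin n) F := MvPolynomial.aeval β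
  have hJT : J.card ≤ T.card := by
    apply card_le_of_adjoin J T (fun w => φ (C.val w))
    rintro ⟨r, j⟩ hx
    have hx' := hx
    rw [hJ, mem_filter, hJ0, mem_filter] at hx'
    obtain ⟨⟨_, hx1⟩, hx2⟩ := hx'
    simp only at hx1
    -- the matched output
    set i : Fin n := v + (j - u) with hi
    have hiv : i - v = j - u := by rw [hi]; simp
    have hdis : ∀ p ∈ J, C.G.cnt T (aStart C p) (C.out r i) = 0 := by
      intro p hp
      rw [hJ, mem_filter] at hp
      have h1 := hp.2 (r, i) (by simp only; rw [hiv]; exact hx1)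
      rw [hH, HH, mem_filter] at h1
      push Not at h1
      exact h1 (mem_univ _)
    have h2 := mem_adjT C T J (C.out r i) hdis
    have h3 : φ (C.val (C.out r i)) ∈ (Algebra.adjoin F
        ((MvPolynomial.X '' {x : Vars n | ∀ p ∈ J, x ≠ Sum.inl p}) ∪
          C.val '' (T : Set C.V))).map φ := Subalgebra.mem_map.mpr ⟨_, h2, rfl⟩
    rw [AlgHom.map_adjoin] at h3
    have h4 : φ (C.val (C.out r i)) = MvPolynomial.X (r, j) := by
      rw [hC, map_sum, sum_eq_single j]
      · rw [map_mul, MvPolynomial.aeval_X, MvPolynomial.aeval_X]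
        simp only [β]
        rw [if_pos hx, if_pos hiv.symm, mul_one]
      · intro l _ hl
        rw [map_mul, MvPolynomial.aeval_X, MvPolynomial.aeval_X]
        simp only [β]
        rw [if_neg (c := l - u = i - v) (by
          rw [hiv]
          intro h
          exact hl (sub_left_injective h)), mul_zero]
      · intro h; exact absurd (mem_univ j) h
    rw [h4] at h3
    refine Algebra.adjoin_le ?_ h3
    rintro _ ⟨q, hq | hq, rfl⟩
    · obtain ⟨x, hx3, rfl⟩ := hq
      rcases x with x | x
      · have h5 : x ∉ J := fun h => hx3 x h rfl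
        have h6 : φ (MvPolynomial.X (Sum.inl x)) = 0 := by
          rw [MvPolynomial.aeval_X]
          simp only [β]
          rw [if_neg h5]
        show φ (MvPolynomial.X (Sum.inl x)) ∈ _
        rw [h6]
        exact Subalgebra.zero_mem _
      · show φ (MvPolynomial.X (Sum.inr x)) ∈ _
        rw [MvPolynomial.aeval_X]
        simp only [β]
        split_ifs
        · exact Subalgebra.one_mem _
        · exact Subalgebra.zero_mem _
    · obtain ⟨w, hw, rfl⟩ := hq
      exact Algebra.subset_adjoin ⟨w, hw, rfl⟩
  -- conclusion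
  rw [hJ0c] at hJc
  have h1 : n * k ≤ 2 * (e (u, v)).card := by omega
  have h2 : (n * k) * n ^ 2 ≤ 2 * (H.card * k ^ 2) := by
    calc (n * k) * n ^ 2 ≤ 2 * (e (u, v)).card * n ^ 2 := Nat.mul_le_mul_right _ h1
      _ = 2 * ((e (u, v)).card * n ^ 2) := by ring
      _ ≤ 2 * (H.card * k ^ 2) := Nat.mul_le_mul_left _ huv
  have h3 : k * n ^ 3 ≤ k * (2 * H.card * k) := by nlinarith
  exact Nat.le_of_mul_le_mul_left h3 hk

/-- The labels of the variables of the first matrix, numbered. -/
def labN (v : C.V) : Option (Fin (n * n)) := (labA C v).map finProdFinEquiv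

/-- The outputs, numbered. -/
def outN (i : Fin (n * n)) : C.V := C.out (finProdFinEquiv.symm i).1 (finProdFinEquiv.symm i).2

theorem start_labN (p : Fin n × Fin n) : start (labN C) (finProdFinEquiv p) = aStart C p := by
  funext v
  unfold start aStart labN
  by_cases h : C.label v = some (Sum.inl p)
  · rw [if_pos h, if_pos]
    rw [(labA_eq C v p).2 h]; rfl
  · rw [if_neg h, if_neg]
    intro h'
    rw [Option.map_eq_some_iff] at h'
    obtain ⟨q, hq, he⟩ := h'
    have := finProdFinEquiv.injective he
    subst this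
    exact h ((labA_eq C v q).1 hq)

theorem conn_card (T : Finset C.V) :
    (conn C.G (labN C) (outN C) T).card = (HH C T).card := by
  symm
  apply card_bij (fun p _ => (finProdFinEquiv p.2, finProdFinEquiv p.1))
  · rintro ⟨x, y⟩ hp
    rw [HH, mem_filter] at hp
    rw [conn, mem_filter]
    refine ⟨mem_univ _, ?_⟩
    simp only
    rw [start_labN]
    unfold outN
    simp only [Equiv.symm_apply_apply]
    exact hp.2
  · rintro ⟨x, y⟩ _ ⟨x', y'⟩ _ h
    rw [Prod.mk.injEq] at h
    rw [Prod.mk.injEq]
    exact ⟨finProdFinEquiv.injective h.2, finProdFinEquiv.injective h.1⟩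
  · rintro ⟨i, j⟩ hp
    rw [conn, mem_filter] at hp
    refine ⟨(finProdFinEquiv.symm j, finProdFinEquiv.symm i), ?_, by
      rw [Equiv.apply_symm_apply, Equiv.apply_symm_apply]⟩
    rw [HH, mem_filter]
    refine ⟨mem_univ _, ?_⟩
    have := hp.2
    simp only at this
    rw [← finProdFinEquiv.apply_symm_apply j, start_labN] at this
    exact this

/-- The gates through which more than `θ` pairs pass: the number of variables of the first matrix
with a path to the gate times the number of outputs with a path from it exceeds `θ`. -/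
noncomputable def heavyM (θ : ℕ) : Finset C.V :=
  univ.filter fun v => θ <
    (univ.filter fun p : Fin n × Fin n => C.G.cnt ∅ (aStart C p) v ≠ 0).card *
    (univ.filter fun q : Fin n × Fin n => C.G.cnt ∅ (Pi.single v 1) (C.out q.1 q.2) ≠ 0).card

theorem thr_eq (v : C.V) : thr C.G (labN C) (outN C) ∅ v =
    (univ.filter fun p : Fin n × Fin n => C.G.cnt ∅ (aStart C p) v ≠ 0).card *
    (univ.filter fun q : Fin n × Fin n =>
      C.G.cnt ∅ (Pi.single v 1) (C.out q.1 q.2) ≠ 0).card := by
  unfold thr RR SS
  congr 1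
  · symm
    apply card_bij (fun p _ => finProdFinEquiv p)
    · intro p hp
      rw [mem_filter] at hp ⊢
      rw [start_labN]
      exact ⟨mem_univ _, hp.2⟩
    · intro a _ b _ h; exact finProdFinEquiv.injective h
    · intro j hj
      rw [mem_filter] at hj
      refine ⟨finProdFinEquiv.symm j, ?_, Equiv.apply_symm_apply _ _⟩
      rw [mem_filter]
      refine ⟨mem_univ _, ?_⟩
      have := hj.2
      rw [← finProdFinEquiv.apply_symm_apply j, start_labN] at this
      exact this
  · symm
    apply card_bij (fun p _ => finProdFinEquiv p)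
    · intro p hp
      rw [mem_filter] at hp ⊢
      unfold outN
      simp only [Equiv.symm_apply_apply]
      exact ⟨mem_univ _, hp.2⟩
    · intro a _ b _ h; exact finProdFinEquiv.injective h
    · intro j hj
      rw [mem_filter] at hj
      refine ⟨finProdFinEquiv.symm j, ?_, Equiv.apply_symm_apply _ _⟩
      rw [mem_filter]
      exact ⟨mem_univ _, hj.2⟩

/-- **Matrix multiplication.** -/
theorem mm_heavy (hC : C.ComputesMM) (θ k : ℕ) (hk : 1 ≤ k) (hkn : 8 * k ≤ n)
    (hT : 2 * (heavyM C θ).card ≤ n * k) :
    (n : ℝ) ^ 3 * Real.logb 2 (n / (8 * k)) ≤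
      2 * k * (θ * (Fintype.card C.V + C.G.E.card)) := by
  have hn : 0 < n := by omega
  have hnR : (0 : ℝ) < n := by exact_mod_cast hn
  have hkR : (0 : ℝ) < k := by exact_mod_cast hk
  set T := heavyM C θ with hTdef
  have h1 := cut_bound C hC T k hk (by omega) hT
  set P : ℝ := ((HH C T).card : ℝ) with hP
  have h1R : (n : ℝ) ^ 3 ≤ 2 * P * k := by
    rw [hP]; exact_mod_cast h1
  have hP0 : 0 < P := by
    by_contra hcon
    push Not at hcon
    have : 2 * P * k ≤ 0 := mul_nonpos_of_nonpos_of_nonneg (by linarith) hkR.le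
    have h2 : (0 : ℝ) < (n : ℝ) ^ 3 := by positivity
    linarith
  have hth : ∀ K : ℕ, (K : ℝ) * P ≤ θ * (Fintype.card C.V + C.G.E.card) +
      ((n : ℝ) * n) * 2 ^ K := by
    intro K
    have := thresh C.G (ρ := Unit) (fun _ => labN C) (fun _ => outN C) T θ
      (fun v hv => by
        have h2 : thr C.G (labN C) (outN C) T v ≤ θ := by
          refine (thr_anti _ _ _ _ v).trans ?_
          rw [thr_eq]
          rw [hTdef, heavyM, mem_filter] at hv
          push Not at hv
          exact hv (mem_univ _)
        simpa using h2) K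
    simp only [univ_unique, sum_const, card_singleton, one_smul, Fintype.card_unit,
      one_mul, conn_card] at this
    rw [hP]
    exact_mod_cast this
  have hkey := key ((n : ℝ) * n) P (θ * (Fintype.card C.V + C.G.E.card)) (by positivity)
    (by positivity) hP0 hth
  have hlog0 : 0 ≤ Real.logb 2 (n / (8 * k)) := by
    apply Real.logb_nonneg (by norm_num)
    rw [le_div_iff₀ (by positivity)]
    have : (8 : ℝ) * k ≤ n := by exact_mod_cast hkn
    linarith
  have hlog : Real.logb 2 (n / (8 * k)) ≤ Real.logb 2 (P / ((n : ℝ) * n)) - 2 := by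
    have h2 : Real.logb 2 (n / (8 * k)) + 2 = Real.logb 2 (n / (2 * k)) := by
      have h4 : (2 : ℝ) = Real.logb 2 4 := by
        rw [show (4 : ℝ) = 2 ^ (2 : ℝ) by norm_num, Real.logb_rpow (by norm_num) (by norm_num)]
      nth_rewrite 2 [h4]
      rw [← Real.logb_mul (by positivity) (by norm_num)]
      congr 1
      field_simp
      norm_num
    have h3 : Real.logb 2 (n / (2 * k)) ≤ Real.logb 2 (P / ((n : ℝ) * n)) := by
      apply Real.logb_le_logb_of_le (by norm_num) (by positivity)
      rw [div_le_div_iff₀ (by positivity) (by positivity)]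
      nlinarith
    linarith
  have h2 : Real.logb 2 (n / (8 * k)) * P ≤ θ * (Fintype.card C.V + C.G.E.card) :=
    (mul_le_mul_of_nonneg_right hlog hP0.le).trans hkey
  calc (n : ℝ) ^ 3 * Real.logb 2 (n / (8 * k)) ≤ (2 * P * k) * Real.logb 2 (n / (8 * k)) :=
        mul_le_mul_of_nonneg_right h1R hlog0
    _ = 2 * k * (Real.logb 2 (n / (8 * k)) * P) := by ring
    _ ≤ 2 * k * (θ * (Fintype.card C.V + C.G.E.card)) :=
        mul_le_mul_of_nonneg_left h2 (by positivity)

end mm

end Pool.Agent.TH708.Fat
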