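import Pool.Agent.H682R3.Few.Multi

set_option linter.unusedSectionVars false

/-!
# Graphs in which few variable-output pairs pass through every node
-/

namespace Pool.Agent.TH708.Fat

open Finset Pool.Agent.H682R3.Few

theorem count_le (a b K : ℕ) :
    ((range K).filter fun k => a ≤ 2 ^ k ∧ 2 ^ k < b).card * a ≤ b := by
  set S := (range K).filter fun k => a ≤ 2 ^ k ∧ 2 ^ k < b with hS
  by_cases hne : S.Nonempty
  · have hmem : ∀ k ∈ S, k < K ∧ a ≤ 2 ^ k ∧ 2 ^ k < b := by
      intro k hk
      rw [hS, mem_filter, mem_range] at hk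
      exact hk
    have h1 := hmem _ (S.min'_mem hne)
    have h2 := hmem _ (S.max'_mem hne)
    set p := S.min' hne
    set q := S.max' hne
    have hpq : p ≤ q := S.min'_le _ (S.max'_mem hne)
    have hsub : S ⊆ Icc p q := fun k hk => mem_Icc.2 ⟨S.min'_le _ hk, S.le_max' _ hk⟩
    have hc := card_le_card hsub
    rw [Nat.card_Icc] at hc
    have h3 : q + 1 - p ≤ 2 ^ (q - p) := by
      have := Nat.lt_two_pow_self (n := q - p)
      omega
    have h4 : 2 ^ (q - p) * 2 ^ p = 2 ^ q := by
      rw [← pow_add]; congr 1; omega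
    calc S.card * a ≤ 2 ^ (q - p) * 2 ^ p := Nat.mul_le_mul (hc.trans h3) h1.2.1
      _ = 2 ^ q := h4
      _ ≤ b := h2.2.2.le
  · rw [not_nonempty_iff_eq_empty] at hne
    rw [hne]; simp

theorem count_le' (b K : ℕ) : ((range K).filter fun k => 2 ^ k < b).card ≤ b := by
  have h := count_le 1 b K
  rw [mul_one] at h
  refine le_trans (card_le_card ?_) h
  intro k hk
  rw [mem_filter] at hk ⊢
  exact ⟨hk.1, Nat.one_le_two_pow, hk.2⟩

section row

variable {V : Type} [Fintype V] [DecidableEq V] (G : Dag V) {n : ℕ} (lab : V → Option (Fin n))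
  (out : Fin n → V)

/-- The connected pairs avoiding `T` whose output is reached by more than `2 ^ k` variables. -/
noncomputable def pairs (T : Finset V) (k : ℕ) : Finset (Fin n × Fin n) :=
  univ.filter fun p => G.cnt T (start lab p.2) (out p.1) ≠ 0 ∧
    2 ^ k < (RR G lab T (out p.1)).card

/-- The connected pairs avoiding `T`. -/
noncomputable def conn (T : Finset V) : Finset (Fin n × Fin n) :=
  univ.filter fun p => G.cnt T (start lab p.2) (out p.1) ≠ 0

theorem pairs_sub (T : Finset V) (k : ℕ) : pairs G lab out T k ⊆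
    ((univ.filter fun v => v ∉ T ∧ 2 ^ k < (RR G lab T v).card).biUnion fun v =>
      (SS G out T v) ×ˢ (univ.filter fun j => lab v = some j)) ∪
    ((G.E.filter fun e => e.2 ∉ T ∧ (RR G lab T e.1).card ≤ 2 ^ k ∧
      2 ^ k < (RR G lab T e.2).card).biUnion fun e => (SS G out T e.2) ×ˢ (RR G lab T e.1)) := by
  classical
  have key : ∀ N : ℕ, ∀ w, G.rank w < N → w ∉ T → 2 ^ k < (RR G lab T w).card →
      ∀ j ∈ RR G lab T w, ∀ i ∈ SS G out T w, (i, j) ∈
    ((univ.filter fun v => v ∉ T ∧ 2 ^ k < (RR G lab T v).card).biUnion fun v =>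
      (SS G out T v) ×ˢ (univ.filter fun j => lab v = some j)) ∪
    ((G.E.filter fun e => e.2 ∉ T ∧ (RR G lab T e.1).card ≤ 2 ^ k ∧
      2 ^ k < (RR G lab T e.2).card).biUnion fun e =>
        (SS G out T e.2) ×ˢ (RR G lab T e.1)) := by
    intro N
    induction N with
    | zero => intro v hv; exact absurd hv (Nat.not_lt_zero _)
    | succ N ih =>
      intro w hw hwT hwR j hj i hi
      by_cases hl : lab w = some j
      · rw [mem_union]
        left
        rw [mem_biUnion]
        refine ⟨w, ?_, ?_⟩
        · rw [mem_filter]; exact ⟨mem_univ _, hwT, hwR⟩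
        · rw [mem_product]
          exact ⟨hi, by simpa using hl⟩
      · have h1 : G.cnt T (start lab j) w ≠ 0 := by simpa [RR] using hj
        rw [G.cnt_not_mem hwT] at h1
        have h2 : start lab j w = 0 := by simp [start, hl]
        rw [h2, zero_add] at h1
        obtain ⟨u, hu, hu0⟩ := exists_ne_zero_of_sum_ne_zero h1
        have huE : (u, w) ∈ G.E := by simpa using hu
        have huT : u ∉ T := fun h' => hu0 (G.cnt_mem h')
        have hju : j ∈ RR G lab T u := by
          rw [RR, mem_filter]; exact ⟨mem_univ _, hu0⟩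
        by_cases hr : (RR G lab T u).card ≤ 2 ^ k
        · rw [mem_union]
          right
          rw [mem_biUnion]
          refine ⟨(u, w), ?_, ?_⟩
          · rw [mem_filter]; exact ⟨huE, hwT, hr, hwR⟩
          · rw [mem_product]; exact ⟨hi, hju⟩
        · have hiu : i ∈ SS G out T u := SS_mono G out T huE huT hwT hi
          have := G.acyclic u w huE
          exact ih u (by omega) huT (by omega) j hju i hiu
  rintro ⟨i, j⟩ hp
  rw [pairs, mem_filter] at hp
  have h0 : G.cnt T (start lab j) (out i) ≠ 0 := hp.2.1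
  have hoT : out i ∉ T := fun h' => h0 (G.cnt_mem h')
  have hj : j ∈ RR G lab T (out i) := by rw [RR, mem_filter]; exact ⟨mem_univ _, h0⟩
  have hi : i ∈ SS G out T (out i) := by
    rw [SS, mem_filter, G.cnt_single_self hoT]
    exact ⟨mem_univ _, one_ne_zero⟩
  exact key _ (out i) (Nat.lt_succ_self _) hoT hp.2.2 j hj i hi

/-- The number of variable-output pairs through a node. -/
noncomputable def thr (T : Finset V) (v : V) : ℕ :=
  (RR G lab T v).card * (SS G out T v).card

theorem row_bound (T : Finset V) (K : ℕ) :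
    ∑ k ∈ range K, (pairs G lab out T k).card ≤
      ∑ v ∈ univ.filter (fun v => v ∉ T), thr G lab out T v +
        ∑ e ∈ G.E.filter (fun e => e.2 ∉ T), thr G lab out T e.2 := by
  classical
  have h1 : ∀ k, (pairs G lab out T k).card ≤
      ∑ v ∈ univ.filter (fun v => v ∉ T),
        (if 2 ^ k < (RR G lab T v).card then (SS G out T v).card else 0) +
      ∑ e ∈ G.E.filter (fun e => e.2 ∉ T),
        (if (RR G lab T e.1).card ≤ 2 ^ k ∧ 2 ^ k < (RR G lab T e.2).card then
          (SS G out T e.2).card * (RR G lab T e.1).card else 0) := by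
    intro k
    refine (card_le_card (pairs_sub G lab out T k)).trans ((card_union_le _ _).trans ?_)
    refine Nat.add_le_add (card_biUnion_le.trans ?_) (card_biUnion_le.trans ?_)
    · rw [← sum_filter, filter_filter]
      refine sum_le_sum fun v _ => ?_
      rw [card_product]
      have : (univ.filter fun j => lab v = some j).card ≤ 1 := by
        rw [card_le_one]
        intro a ha b hb
        rw [mem_filter] at ha hb
        exact Option.some.inj (ha.2.symm.trans hb.2)
      calc _ ≤ (SS G out T v).card * 1 := Nat.mul_le_mul_left _ this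
        _ = _ := mul_one _
    · rw [← sum_filter, filter_filter]
      refine sum_le_sum fun e _ => ?_
      rw [card_product]
  refine (sum_le_sum fun k _ => h1 k).trans ?_
  rw [sum_add_distrib]
  refine Nat.add_le_add ?_ ?_
  · rw [sum_comm]
    refine sum_le_sum fun v _ => ?_
    rw [← sum_filter, sum_const, smul_eq_mul]
    exact Nat.mul_le_mul_right _ (count_le' _ _)
  · rw [sum_comm]
    refine sum_le_sum fun e _ => ?_
    rw [← sum_filter, sum_const, smul_eq_mul]
    have := count_le (RR G lab T e.1).card (RR G lab T e.2).card K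
    calc _ = ((range K).filter fun k => (RR G lab T e.1).card ≤ 2 ^ k ∧
          2 ^ k < (RR G lab T e.2).card).card * (RR G lab T e.1).card * (SS G out T e.2).card := by
          ring
      _ ≤ _ := Nat.mul_le_mul_right _ this

theorem pairs_large (T : Finset V) (k : ℕ) :
    (conn G lab out T).card ≤ (pairs G lab out T k).card + n * 2 ^ k := by
  classical
  have hsub : conn G lab out T ⊆ pairs G lab out T k ∪
      univ.biUnion (fun i : Fin n => if (RR G lab T (out i)).card ≤ 2 ^ k then
        {i} ×ˢ (RR G lab T (out i)) else ∅) := by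
    rintro ⟨i, j⟩ hp
    rw [conn, mem_filter] at hp
    rw [mem_union]
    by_cases h : (RR G lab T (out i)).card ≤ 2 ^ k
    · right
      rw [mem_biUnion]
      refine ⟨i, mem_univ _, ?_⟩
      rw [if_pos h, mem_product]
      refine ⟨mem_singleton_self _, ?_⟩
      rw [RR, mem_filter]; exact ⟨mem_univ _, hp.2⟩
    · left
      rw [pairs, mem_filter]
      exact ⟨mem_univ _, hp.2, not_le.1 h⟩
  refine (card_le_card hsub).trans ((card_union_le _ _).trans (Nat.add_le_add_left ?_ _))
  refine card_biUnion_le.trans ?_
  calc ∑ i : Fin n, (if (RR G lab T (out i)).card ≤ 2 ^ k then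
          {i} ×ˢ (RR G lab T (out i)) else ∅).card
        ≤ ∑ i : Fin n, 2 ^ k := by
          refine sum_le_sum fun s _ => ?_
          split_ifs with hs
          · rw [card_product, card_singleton, one_mul]
            exact hs
          · simp
      _ = n * 2 ^ k := by rw [sum_const, card_univ, smul_eq_mul, Fintype.card_fin]

theorem row_total (T : Finset V) (K : ℕ) :
    K * (conn G lab out T).card ≤ ∑ v ∈ univ.filter (fun v => v ∉ T), thr G lab out T v +
        ∑ e ∈ G.E.filter (fun e => e.2 ∉ T), thr G lab out T e.2 + n * 2 ^ K := by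
  have h1 : ∑ k ∈ range K, (conn G lab out T).card ≤
      ∑ k ∈ range K, ((pairs G lab out T k).card + n * 2 ^ k) :=
    sum_le_sum fun k _ => pairs_large G lab out T k
  rw [sum_const, card_range, smul_eq_mul, sum_add_distrib, ← mul_sum] at h1
  have h2 : ∑ k ∈ range K, 2 ^ k ≤ 2 ^ K := by
    have := Nat.geomSum_lt (m := 2) (n := K) (s := range K) (by norm_num)
      (fun k hk => mem_range.1 hk)
    exact this.le
  have h3 := row_bound G lab out T K
  have h4 : n * ∑ k ∈ range K, 2 ^ k ≤ n * 2 ^ K := Nat.mul_le_mul_left _ h2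
  omega

end row

/-- **The threshold bound** for several systems of variables and outputs in one graph: if for
every node `v` outside `T` at most `θ` pairs (over all systems) have their variable below `v` and
their output above `v`, then `K` times the number of connected pairs is at most
`θ (|V| + |E|) + ρ n 2^K`. -/
theorem thresh {V : Type} [Fintype V] [DecidableEq V] (G : Dag V) {n : ℕ} {ρ : Type} [Fintype ρ]
    (lab : ρ → V → Option (Fin n)) (out : ρ → Fin n → V) (T : Finset V) (θ : ℕ)
    (h : ∀ v ∉ T, ∑ r, thr G (lab r) (out r) T v ≤ θ) (K : ℕ) :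
    K * ∑ r, (conn G (lab r) (out r) T).card ≤
      θ * (Fintype.card V + G.E.card) + Fintype.card ρ * (n * 2 ^ K) := by
  classical
  rw [mul_sum]
  refine (sum_le_sum fun r _ => row_total G (lab r) (out r) T K).trans ?_
  rw [sum_add_distrib, sum_add_distrib, sum_const, card_univ, smul_eq_mul]
  refine Nat.add_le_add_right ?_ _
  rw [mul_add]
  refine Nat.add_le_add ?_ ?_
  · rw [sum_comm]
    calc ∑ v ∈ univ.filter (fun v => v ∉ T), ∑ r, thr G (lab r) (out r) T v
        ≤ ∑ _v ∈ univ.filter (fun v => v ∉ T), θ :=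
          sum_le_sum fun v hv => h v (mem_filter.1 hv).2
      _ = (univ.filter (fun v => v ∉ T)).card * θ := by rw [sum_const, smul_eq_mul]
      _ ≤ Fintype.card V * θ := Nat.mul_le_mul_right _ (card_le_univ _)
      _ = _ := mul_comm _ _
  · rw [sum_comm]
    calc ∑ e ∈ G.E.filter (fun e => e.2 ∉ T), ∑ r, thr G (lab r) (out r) T e.2
        ≤ ∑ _e ∈ G.E.filter (fun e => e.2 ∉ T), θ :=
          sum_le_sum fun e he => h e.2 (mem_filter.1 he).2
      _ = (G.E.filter (fun e => e.2 ∉ T)).card * θ := by rw [sum_const, smul_eq_mul]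
      _ ≤ G.E.card * θ := Nat.mul_le_mul_right _ (card_le_card (filter_subset _ _))
      _ = _ := mul_comm _ _

end Pool.Agent.TH708.Fat
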